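import Pool.Agent.Lib.MP_b1555f_an.Defs

set_option autoImplicit false

namespace Pool.Agent.Lib.MP_b1555f_an

open Polynomial Finset

namespace Bfx

/-- an alternating chain of `p` points in `(a, 1)` with first sign `ε` -/
def Ch (f : ℝ[X]) : ℝ → ℝ → ℕ → Prop
  | _, _, 0 => True
  | a, ε, p + 1 => ∃ x, a < x ∧ x < 1 ∧ 0 < ε * f.eval x ∧ Ch f x (-ε) p

theorem Ch.mono {f : ℝ[X]} {a a' ε : ℝ} {p : ℕ} (h : a' ≤ a) (H : Ch f a ε p) : Ch f a' ε p := by
  cases p with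
  | zero => trivial
  | succ p => obtain ⟨x, h1, h2⟩ := H; exact ⟨x, h.trans_lt h1, h2⟩

theorem mvt (f : ℝ[X]) (ε : ℝ) {a b : ℝ} (hab : a < b) (h : ε * f.eval a < ε * f.eval b) :
    ∃ y, a < y ∧ y < b ∧ 0 < ε * (derivative f).eval y := by
  obtain ⟨y, hy, e⟩ := exists_hasDerivAt_eq_slope (fun x => f.eval x)
    (fun x => (derivative f).eval x) hab f.continuous.continuousOn (fun x _ => f.hasDerivAt x)
  refine ⟨y, hy.1, hy.2, ?_⟩
  rw [e, ← mul_div_assoc]
  exact div_pos (by linarith) (by linarith)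

theorem step {f : ℝ[X]} : ∀ {p : ℕ} {a ε : ℝ}, ε * f.eval a ≤ 0 → Ch f a ε p →
    Ch (derivative f) a ε p
  | 0, _, _, _, _ => trivial
  | p + 1, a, ε, h, ⟨x, h1, h2, h3, h4⟩ => by
    obtain ⟨y, y1, y2, y3⟩ := mvt f ε h1 (h.trans_lt h3)
    exact ⟨y, y1, y2.trans h2, y3, (step (by linarith) h4).mono y2.le⟩

theorem step1 {f : ℝ[X]} (hf : f.eval 1 = 0) : ∀ {p : ℕ} {a ε : ℝ}, a < 1 → ε * f.eval a < 0 →
    Ch f a ε p → Ch (derivative f) a ε (p + 1)
  | 0, a, ε, ha, h, _ => by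
    obtain ⟨y, y1, y2, y3⟩ := mvt f ε ha (by rw [hf]; simpa using h)
    exact ⟨y, y1, y2, y3, trivial⟩
  | p + 1, a, ε, _, h, ⟨x, h1, h2, h3, h4⟩ => by
    obtain ⟨y, y1, y2, y3⟩ := mvt f ε h1 (h.trans h3)
    exact ⟨y, y1, y2.trans h2, y3, (step1 hf h2 (by linarith) h4).mono y2.le⟩

/-- a zero without sign change -/
def Touch (g : ℝ[X]) (c : ℝ) : Prop :=
  g.eval c = 0 ∧ ∃ η δ : ℝ, (η = 1 ∨ η = -1) ∧ 0 < δ ∧
    ∀ y, y ≠ c → c - δ < y → y < c + δ → 0 < η * g.eval y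

theorem exists_between3 {a b c : ℝ} (h1 : a < b) (h2 : a < c) : ∃ y, a < y ∧ y < b ∧ y < c := by
  obtain ⟨y, y1, y2⟩ := exists_between (lt_min h1 h2)
  exact ⟨y, y1, y2.trans_le (min_le_left _ _), y2.trans_le (min_le_right _ _)⟩

theorem exists_between3' {a b c : ℝ} (h1 : a < c) (h2 : b < c) : ∃ y, a < y ∧ b < y ∧ y < c := by
  obtain ⟨y, y1, y2⟩ := exists_between (max_lt h1 h2)
  exact ⟨y, (le_max_left _ _).trans_lt y1, (le_max_right _ _).trans_lt y1, y2⟩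

theorem touch_base {g : ℝ[X]} {c : ℝ} (hc : c < 1) (hT : Touch g c) {p : ℕ} {a ε : ℝ}
    (hε : ε = 1 ∨ ε = -1) (ha : a < c) (h : ε * g.eval a ≤ 0) (H : Ch g c ε p) :
    Ch (derivative g) a ε (p + 2) := by
  obtain ⟨h0, η, δ, hη, hδ, hs⟩ := hT
  obtain ⟨l, l1, l2, l3⟩ := exists_between3' ha (show c - δ < c by linarith)
  have hl := hs l l3.ne l2 (by linarith)
  have hor : η = ε ∨ η = -ε := by
    rcases hη with rfl | rfl <;> rcases hε with rfl | rfl <;> simp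
  rcases hor with rfl | rfl
  · obtain ⟨y, y1, y2, y3⟩ := mvt g η l1 (h.trans_lt hl)
    obtain ⟨z, z1, z2, z3⟩ := mvt g (-η) l3 (by rw [h0]; linarith)
    refine ⟨y, y1, by linarith, y3, z, by linarith, by linarith, z3, ?_⟩
    rw [neg_neg]
    exact (step (by rw [h0]; simp) H).mono z2.le
  · obtain ⟨r, r1, r2, r3, r4⟩ : ∃ r, c < r ∧ r < c + δ ∧ r < 1 ∧ Ch g r ε p := by
      cases p with
      | zero =>
        obtain ⟨r, r1, r2, r3⟩ := exists_between3 (show c < c + δ by linarith) hc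
        exact ⟨r, r1, r2, r3, trivial⟩
      | succ p =>
        obtain ⟨x, x1, x2, x3⟩ := H
        obtain ⟨r, r1, r2, r3⟩ := exists_between3 (show c < c + δ by linarith) x1
        exact ⟨r, r1, r2, r3.trans x2, x, r3, x2, x3⟩
    have hr := hs r r1.ne' (by linarith) r2
    obtain ⟨y, y1, y2, y3⟩ := mvt g ε l3 (by rw [h0]; linarith)
    obtain ⟨z, z1, z2, z3⟩ := mvt g (-ε) r1 (by rw [h0]; linarith)
    refine ⟨y, by linarith, by linarith, y3, z, by linarith, by linarith, z3, ?_⟩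
    rw [neg_neg]
    exact (step (by linarith) r4).mono z2.le

theorem touch {g : ℝ[X]} {c : ℝ} (hc : c < 1) (hT : Touch g c) : ∀ {p : ℕ} {a ε : ℝ},
    (ε = 1 ∨ ε = -1) → a < c → ε * g.eval a ≤ 0 → Ch g a ε p → Ch (derivative g) a ε (p + 2)
  | 0, _, _, hε, ha, h, _ => touch_base hc hT hε ha h trivial
  | p + 1, a, ε, hε, ha, h, ⟨x, h1, h2, h3, h4⟩ => by
    rcases lt_trichotomy x c with hx | hx | hx
    · obtain ⟨y, y1, y2, y3⟩ := mvt g ε h1 (h.trans_lt h3)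
      refine ⟨y, y1, y2.trans h2, y3, (touch hc hT ?_ hx (by linarith) h4).mono y2.le⟩
      rcases hε with rfl | rfl <;> simp
    · rw [hx, hT.1] at h3; simp at h3
    · exact touch_base hc hT hε ha h ⟨x, hx, h2, h3, h4⟩

theorem near (h : ℝ[X]) {c η : ℝ} (hc : 0 < η * h.eval c) :
    ∃ δ, 0 < δ ∧ ∀ y, c - δ < y → y < c + δ → 0 < η * h.eval y := by
  have hcont : Continuous fun y => η * h.eval y := continuous_const.mul h.continuous
  obtain ⟨δ, hδ, H⟩ := Metric.eventually_nhds_iff.1 (hcont.continuousAt.eventually (lt_mem_nhds hc))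
  exact ⟨δ, hδ, fun y y1 y2 => H (by rw [Real.dist_eq, abs_lt]; constructor <;> linarith)⟩

theorem exists_sign {x : ℝ} (h : x ≠ 0) : ∃ η : ℝ, (η = 1 ∨ η = -1) ∧ 0 < η * x := by
  rcases lt_or_gt_of_ne h with h | h
  · exact ⟨-1, Or.inr rfl, by linarith⟩
  · exact ⟨1, Or.inl rfl, by linarith⟩

theorem touch_of {h : ℝ[X]} {c : ℝ} {k : ℕ} (hk : Even k) (h0 : k ≠ 0) (hc : h.eval c ≠ 0) :
    Touch ((X - C c) ^ k * h) c := by
  obtain ⟨η, hη, hp⟩ := exists_sign hc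
  obtain ⟨δ, hδ, H⟩ := near h hp
  refine ⟨by simp [h0], η, δ, hη, hδ, fun y hy y1 y2 => ?_⟩
  have := H y y1 y2
  have h2 : 0 < (y - c) ^ k := hk.pow_pos (sub_ne_zero.2 hy)
  simp only [eval_mul, eval_pow, eval_sub, eval_X, eval_C]
  nlinarith [mul_pos h2 this]

theorem touch_or {g : ℝ[X]} {c : ℝ} (hg : g ≠ 0) (h0 : g.eval c = 0)
    (h1 : (derivative g).eval c = 0) : Touch g c ∨ Touch (derivative g) c := by
  obtain ⟨h, e, hd⟩ := exists_eq_pow_rootMultiplicity_mul_and_not_dvd g hg c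
  have hc : h.eval c ≠ 0 := fun z => hd (dvd_iff_isRoot.2 z)
  generalize rootMultiplicity c g = k at e
  subst e
  rcases k with _ | k
  · simp at h0; exact absurd h0 hc
  rcases Nat.even_or_odd (k + 1) with hk | hk
  · exact Or.inl (touch_of hk (by omega) hc)
  · right
    have e : derivative ((X - C c) ^ (k + 1) * h) =
        (X - C c) ^ k * (C ((k : ℝ) + 1) * h + (X - C c) * derivative h) := by
      rw [derivative_mul, derivative_X_sub_C_pow]
      simp only [Nat.add_sub_cancel, Nat.cast_add, Nat.cast_one, map_add, map_natCast, map_one]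
      ring
    have hk0 : k ≠ 0 := by
      rintro rfl
      rw [e] at h1; simp at h1; exact hc h1
    rw [e]
    refine touch_of (by simpa [Nat.odd_add_one] using hk) hk0 ?_
    have : (0 : ℝ) < (k : ℝ) + 1 := by positivity
    simpa using ⟨this.ne', hc⟩

theorem sg_or (u : ℝ[X]) : sg u = 1 ∨ sg u = -1 := by
  unfold sg; split_ifs <;> simp

theorem sg_near {f : ℝ[X]} (hf : f ≠ 0) : ∃ δ, 0 < δ ∧ ∀ y, 0 < y → y < δ → 0 < sg f * f.eval y := by
  obtain ⟨g, e⟩ : X ^ f.natTrailingDegree ∣ f :=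
    X_pow_dvd_iff.2 fun d hd => coeff_eq_zero_of_lt_natTrailingDegree hd
  have h1 : f.trailingCoeff = g.eval 0 := by
    have := coeff_X_pow_mul g f.natTrailingDegree 0
    rw [← e, zero_add] at this
    rw [trailingCoeff, this, coeff_zero_eq_eval_zero]
  have h2 : f.trailingCoeff ≠ 0 := trailingCoeff_nonzero_iff_nonzero.2 hf
  have h3 : 0 < sg f * g.eval 0 := by
    rw [← h1]; unfold sg; split_ifs with h
    · simpa using h
    · have := lt_of_le_of_ne (not_lt.1 h) h2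
      linarith
  obtain ⟨δ, hδ, H⟩ := near g h3
  refine ⟨δ, hδ, fun y y1 y2 => ?_⟩
  have := H y (by linarith) (by linarith)
  have h4 : f.eval y = y ^ f.natTrailingDegree * g.eval y := by
    conv_lhs => rw [e]
    simp
  rw [h4]
  nlinarith [mul_pos (pow_pos y1 f.natTrailingDegree) this]

theorem prepend {f : ℝ[X]} (hf : f ≠ 0) {x : ℝ} (hx : 0 < x) {q : ℕ} (H : Ch f x (-sg f) q) :
    ∃ y, 0 < y ∧ y < x ∧ y < 1 ∧ 0 < sg f * f.eval y ∧ Ch f y (-sg f) q := by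
  obtain ⟨δ, hδ, hs⟩ := sg_near hf
  obtain ⟨y, y1, y2, y3⟩ := exists_between3 hx (lt_min hδ one_pos)
  exact ⟨y, y1, y2, y3.trans_le (min_le_right _ _), hs y y1 (y3.trans_le (min_le_left _ _)),
    H.mono y2.le⟩

theorem base {f : ℝ[X]} (hf : f ≠ 0) : Ch f 0 (sg f) 1 := by
  obtain ⟨y, y1, -, y3, y4, y5⟩ := prepend hf one_pos (q := 0) trivial
  exact ⟨y, y1, y3, y4, y5⟩

theorem finish {g : ℝ[X]} (hg : g ≠ 0) {x ε : ℝ} (hε : ε = 1 ∨ ε = -1) (hx : 0 < x) {q : ℕ}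
    (H : Ch g x (-ε) q) : ∃ p, Ch g 0 (sg g) (p + 1) ∧ q ≤ p + if ε ≠ sg g then 1 else 0 := by
  by_cases h : ε = sg g
  · subst h
    obtain ⟨y, y1, -, y3, y4, y5⟩ := prepend hg hx H
    exact ⟨q, ⟨y, y1, y3, y4, y5⟩, by simp⟩
  · have e : -ε = sg g := by
      rcases hε with rfl | rfl <;> rcases sg_or g with h' | h' <;> simp_all
    cases q with
    | zero => exact ⟨0, base hg, by simp⟩
    | succ q => exact ⟨q, e ▸ H.mono hx.le, by simp [h]⟩

theorem next {f : ℝ[X]} (hf : derivative f ≠ 0) {p : ℕ} (H : Ch f 0 (sg f) (p + 1)) :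
    ∃ p', Ch (derivative f) 0 (sg (derivative f)) (p' + 1) ∧
      (p + if f.eval 1 = 0 then 1 else 0) ≤ p' + if sg f ≠ sg (derivative f) then 1 else 0 := by
  obtain ⟨x, x1, x2, x3, x4⟩ := H
  by_cases h : f.eval 1 = 0
  · simpa [h] using finish hf (sg_or f) x1 (step1 h x2 (by linarith) x4)
  · simpa [h] using finish hf (sg_or f) x1 (step (by linarith) x4)

theorem nextT {f : ℝ[X]} (hf : derivative f ≠ 0) {c : ℝ} (c0 : 0 < c) (c1 : c < 1)
    (hT : Touch f c) {p : ℕ} (H : Ch f 0 (sg f) (p + 1)) :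
    ∃ p', Ch (derivative f) 0 (sg (derivative f)) (p' + 1) ∧
      p + 2 ≤ p' + if sg f ≠ sg (derivative f) then 1 else 0 := by
  obtain ⟨x, x1, x2, x3, x4⟩ := H
  have hf0 : f ≠ 0 := fun e => hf (by simp [e])
  obtain ⟨y, y1, y2, -, y4, y5⟩ := prepend hf0 (lt_min x1 c0) (x4.mono (min_le_left _ _))
  refine finish hf (sg_or f) y1 (touch c1 hT ?_ (y2.trans_le (min_le_right _ _)) (by linarith) y5)
  rcases sg_or f with h | h <;> simp [h]

theorem V_succ (u : ℝ[X]) (n : ℕ) : V u (n + 1) = V u n +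
    if sg (derivative^[n] u) ≠ sg (derivative (derivative^[n] u)) then 1 else 0 := by
  unfold V
  rw [card_filter, card_filter, sum_range_succ, Function.iterate_succ_apply']

theorem Zc_succ (u : ℝ[X]) (n : ℕ) : Zc u (n + 1) = Zc u n +
    if (derivative^[n] u).eval 1 = 0 then 1 else 0 := by
  unfold Zc
  rw [card_filter, card_filter, sum_range_succ]

theorem inv (u : ℝ[X]) : ∀ n, derivative^[n] u ≠ 0 →
    ∃ p, Ch (derivative^[n] u) 0 (sg (derivative^[n] u)) (p + 1) ∧ Zc u n ≤ p + V u n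
  | 0, h => ⟨0, base h, by simp [Zc]⟩
  | n + 1, h => by
    rw [Function.iterate_succ_apply'] at h ⊢
    obtain ⟨p, h1, h2⟩ := inv u n fun e => h (by simp [e])
    obtain ⟨p', h3, h4⟩ := next h h1
    exact ⟨p', h3, by rw [V_succ, Zc_succ]; omega⟩

theorem zeros {f : ℝ[X]} : ∀ {p : ℕ} {a ε : ℝ}, ε * f.eval a < 0 → Ch f a ε p →
    ∃ s : Finset ℝ, s.card = p ∧ ∀ x ∈ s, a < x ∧ x < 1 ∧ f.eval x = 0
  | 0, _, _, _, _ => ⟨∅, rfl, by simp⟩
  | p + 1, a, ε, h, ⟨x, h1, h2, h3, h4⟩ => by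
    obtain ⟨s, s1, s2⟩ := zeros (by linarith) h4
    have hc : ContinuousOn (fun y => ε * f.eval y) (Set.Icc a x) :=
      (continuous_const.mul f.continuous).continuousOn
    obtain ⟨z, z1, z2⟩ := intermediate_value_Ioo h1.le hc (show (0 : ℝ) ∈ _ from ⟨h, h3⟩)
    have hε : ε ≠ 0 := fun e => by simp [e] at h
    have hz : z ∉ s := fun m => absurd (s2 z m).1 (not_lt.2 z1.2.le)
    refine ⟨insert z s, by rw [card_insert_of_notMem hz, s1], fun y hy => ?_⟩
    rcases mem_insert.1 hy with rfl | hy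
    · exact ⟨z1.1, z1.2.trans h2, (mul_eq_zero.1 z2).resolve_left hε⟩
    · exact ⟨h1.trans (s2 y hy).1, (s2 y hy).2⟩

theorem cont (u : ℝ[X]) (c n : ℕ)
    (H : ∃ p, Ch (derivative^[n] u) 0 (sg (derivative^[n] u)) (p + 1) ∧ c ≤ p + V u n) :
    ∀ k, derivative^[n + k] u ≠ 0 →
      ∃ p, Ch (derivative^[n + k] u) 0 (sg (derivative^[n + k] u)) (p + 1) ∧ c ≤ p + V u (n + k)
  | 0, _ => H
  | k + 1, h => by
    rw [← add_assoc, Function.iterate_succ_apply'] at h ⊢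
    obtain ⟨p, h1, h2⟩ := cont u c n H k fun e => h (by simp [e])
    obtain ⟨p', h3, h4⟩ := next h h1
    exact ⟨p', h3, by rw [V_succ]; omega⟩

theorem deriv_ne {g : ℝ[X]} {x : ℝ} (hg : g ≠ 0) (h0 : g.eval x = 0) : derivative g ≠ 0 := by
  intro e
  rw [eq_C_of_derivative_eq_zero e] at hg h0
  exact hg (by rw [eval_C] at h0; rw [h0, C_0])

end Bfx

open Bfx

theorem bf1_st : Bf1St := by
  intro u n h
  obtain ⟨p, ⟨x, x1, x2, x3, x4⟩, h2⟩ := inv u n h
  obtain ⟨s, s1, s2⟩ := zeros (by linarith) x4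
  exact ⟨s, fun y hy => ⟨x1.trans (s2 y hy).1, (s2 y hy).2⟩, by omega⟩

theorem bf2_st : Bf2St := by
  intro u n x h x0 x1 h0 h1
  obtain ⟨p, c1, c2⟩ := inv u n h
  rw [Function.iterate_succ_apply'] at h1
  have d1 := deriv_ne h h0
  have d2 := deriv_ne d1 h1
  have e2 : derivative^[n + 2] u = derivative (derivative (derivative^[n] u)) := by
    rw [Function.iterate_succ_apply', Function.iterate_succ_apply']
  have key : ∃ p, Ch (derivative^[n + 2] u) 0 (sg (derivative^[n + 2] u)) (p + 1) ∧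
      Zc u n + 2 ≤ p + V u (n + 2) := by
    rw [e2, V_succ, V_succ, Function.iterate_succ_apply']
    rcases touch_or h h0 h1 with hT | hT
    · obtain ⟨p1, a1, a2⟩ := nextT d1 x0 x1 hT c1
      obtain ⟨p2, a3, a4⟩ := next d2 a1
      exact ⟨p2, a3, by omega⟩
    · obtain ⟨p1, a1, a2⟩ := next d1 c1
      obtain ⟨p2, a3, a4⟩ := nextT d2 x0 x1 hT a1
      exact ⟨p2, a3, by omega⟩
  have hu : u ≠ 0 := fun e => h (by simp [e])
  have hd : n + 2 ≤ u.natDegree := by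
    by_contra hc
    exact d2 (e2 ▸ iterate_derivative_eq_zero (not_le.1 hc))
  obtain ⟨k, hk⟩ := Nat.exists_eq_add_of_le hd
  have hne : derivative^[u.natDegree] u ≠ 0 := by
    intro e
    have := coeff_iterate_derivative (k := u.natDegree) u 0
    rw [e, zero_add, coeff_zero, Nat.descFactorial_self] at this
    have h3 : u.coeff u.natDegree ≠ 0 := leadingCoeff_ne_zero.2 hu
    exact h3 ((smul_eq_zero.1 this.symm).resolve_left (Nat.factorial_ne_zero _))
  obtain ⟨q, q1, q2⟩ := cont u _ _ key k (hk ▸ hne)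
  rw [← hk] at q1 q2
  have hz : derivative (derivative^[u.natDegree] u) = 0 := by
    rw [← Function.iterate_succ_apply' (f := derivative)]
    exact iterate_derivative_eq_zero (Nat.lt_succ_self _)
  cases q with
  | zero => omega
  | succ q =>
    obtain ⟨y, -, -, y3, z, -, -, z3, -⟩ := q1
    rw [eq_C_of_derivative_eq_zero hz, eval_C] at y3 z3
    linarith

end Pool.Agent.Lib.MP_b1555f_an
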