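import Mathlib

/-! Definitions and stub statements for the complete interlacing of Bergman zeros. -/

set_option autoImplicit false

namespace Pool.Agent.Lib.MP_b1555f_an

open Polynomial MeasureTheory Finset

/-- the open regular polygon -/
def gon (N : ℕ) : Set ℂ := interior (convexHull ℝ {w : ℂ | w ^ N = 1})

/-- the Bergman inner product -/
noncomputable def ip (N : ℕ) (p r : ℂ[X]) : ℂ :=
  ∫ z in gon N, p.eval z * (starRingEnd ℂ) (r.eval z)

/-- complexification -/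
noncomputable def cx (F : ℝ[X]) : ℂ[X] := F.map (algebraMap ℝ ℂ)

/-- orthogonal to all degrees below `m` -/
def Ort (N m : ℕ) (p : ℂ[X]) : Prop := ∀ r : ℂ[X], r.natDegree < m → ip N p r = 0

/-- only exponents congruent to `k` -/
def Cls (N k : ℕ) (G : ℝ[X]) : Prop := ∀ e, G.coeff e ≠ 0 → e % N = k % N

/-- the orders of the vertex conditions -/
def Cond (N n e : ℕ) : Prop := e < n ∧ ¬ N ∣ 2 * (n - 1 - e)

def Sat (N n : ℕ) (G : ℝ[X]) : Prop := ∀ e, Cond N n e → (derivative^[e] G).eval 1 = 0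

/-- admissible orders `n` of the Rodrigues form in degree `m` -/
def Win (N n m : ℕ) : Prop :=
  (N = 3 ∨ N = 4) ∧
    ((n % N = 0 ∧ n ≤ m ∧ m < n + N) ∨ (n % N = 2 ∧ (m + 3 = n + N ∨ m + 2 = n + N)))

/-- the sign just right of zero -/
noncomputable def sg (u : ℝ[X]) : ℝ := if 0 < u.trailingCoeff then 1 else -1

/-- sign variations at zero of the first `n` derivatives -/
noncomputable def V (u : ℝ[X]) (n : ℕ) : ℕ :=
  ((range n).filter fun e => sg (derivative^[e] u) ≠ sg (derivative^[e + 1] u)).card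

/-- the number of derivatives of order below `n` vanishing at one -/
noncomputable def Zc (u : ℝ[X]) (n : ℕ) : ℕ :=
  ((range n).filter fun e => (derivative^[e] u).eval 1 = 0).card

/-- no nontrivial combination has a double zero in the open unit interval -/
def NoDbl (P Q : ℝ[X]) : Prop :=
  ∀ a b x : ℝ, 0 < x → x < 1 → (C a * P + C b * Q).eval x = 0 →
    (derivative (C a * P + C b * Q)).eval x = 0 → a = 0 ∧ b = 0

/-- the factorisation over a decreasing list of numbers of the unit interval -/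
def Fac (N m : ℕ) (P : ℝ[X]) (t : ℕ → ℝ) : Prop :=
  P = X ^ (m % N) * (∏ v ∈ range (m / N), (X - C (t v))).comp (X ^ N) ∧
    (∀ v, v < m / N → 0 < t v ∧ t v < 1) ∧ ∀ v w, v < w → w < m / N → t w < t v

def VertSt (N : ℕ) : Prop :=
  ∀ (b : ℕ) (g : ℕ → ℂ[X]), (∀ l, l ≤ b + 1 → derivative (g (l + 1)) = g l) →
    (∀ l, l ≤ b → ¬ N ∣ 2 * (l + 1) → ∀ v : ℂ, v ^ N = 1 → (g (l + 2)).eval v = 0) →
    ip N (g 0) (X ^ b) = 0

structure IpSt (N : ℕ) : Prop where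
  addL : ∀ p q r, ip N (p + q) r = ip N p r + ip N q r
  mulL : ∀ (a : ℂ) p r, ip N (C a * p) r = a * ip N p r
  addR : ∀ p q r, ip N p (q + r) = ip N p q + ip N p r
  mulR : ∀ (a : ℂ) p r, ip N p (C a * r) = (starRingEnd ℂ) a * ip N p r
  pos : ∀ p, ip N p p = 0 → p = 0
  rot : ∀ a b : ℕ, a % N ≠ b % N → ip N (X ^ a) (X ^ b) = 0

def Bf1St : Prop :=
  ∀ (u : ℝ[X]) (n : ℕ), derivative^[n] u ≠ 0 →
    ∃ s : Finset ℝ, (∀ x ∈ s, 0 < x ∧ x < 1 ∧ (derivative^[n] u).eval x = 0) ∧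
      Zc u n ≤ s.card + V u n

def Bf2St : Prop :=
  ∀ (u : ℝ[X]) (n : ℕ) (x : ℝ), derivative^[n] u ≠ 0 → 0 < x → x < 1 →
    (derivative^[n] u).eval x = 0 → (derivative^[n + 1] u).eval x = 0 →
    Zc u n + 2 ≤ V u u.natDegree

def Var1St : Prop :=
  ∀ (N k n : ℕ) (A : ℝ[X]), Cls N k A → derivative^[n] A ≠ 0 →
    V A n ≤ ((range n).filter fun e => e % N = k % N).card

def Var2St : Prop :=
  ∀ (N k : ℕ) (A B : ℝ[X]), (N = 3 ∨ N = 4) → Cls N k A → Cls N (k + 1) B → A + B ≠ 0 →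
    A - B ≠ 0 ∧ (A - B).natDegree = (A + B).natDegree ∧
      V (A + B) (A + B).natDegree + V (A - B) (A + B).natDegree ≤
        ((range (A + B).natDegree).filter fun e => e % N = k % N ∨ e % N = (k + 1) % N).card

open Classical in
def CntSt : Prop :=
  ∀ N n m : ℕ, Win N n m → ((range n).filter fun e => Cond N n e).card = (m + n) / N

def SurjSt : Prop :=
  ∀ (N n m : ℕ) (G : ℝ[X]), Win N n m →
    ∃ H : ℝ[X], Cls N (m + n) H ∧ H.degree < ((m + n : ℕ) : WithBot ℕ) ∧ Sat N n (G - H)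

def OrthSt : Prop :=
  ∀ (N n m : ℕ) (G : ℝ[X]), Win N n m → Cls N (m + n) G → Sat N n G →
    Ort N m (cx (derivative^[n] G))

def Rep0St : Prop :=
  ∀ N m : ℕ, (N = 3 ∨ N = 4) → ∃ P : ℝ[X], P.Monic ∧ P.natDegree = m ∧ Cls N m P ∧
    ∀ p : ℂ[X], (p.Monic ∧ p.natDegree = m ∧ Ort N m p) ↔ p = cx P

def RepSt : Prop :=
  ∀ (N n m : ℕ) (F : ℝ[X]), Win N n m → Cls N m F → Ort N m (cx F) →
    ∃ G : ℝ[X], Cls N (m + n) G ∧ Sat N n G ∧ derivative^[n] G = F ∧
      G.natDegree ≤ max F.natDegree m + n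

/-- the real Bergman polynomial -/
def RB (N m : ℕ) (P : ℝ[X]) : Prop :=
  P.Monic ∧ P.natDegree = m ∧ Cls N m P ∧ Ort N m (cx P)

structure KeySt (N : ℕ) : Prop where
  zeros : ∀ m P, RB N m P → ∃ s : Finset ℝ, (∀ x ∈ s, 0 < x ∧ x < 1 ∧ P.eval x = 0) ∧
    m / N ≤ s.card
  one : ∀ m P Q, RB N m P → RB N (m + 1) Q → NoDbl P Q
  per : ∀ m P Q, RB N m P → RB N (m + N) Q → NoDbl P Q

def FacSt : Prop :=
  ∀ (N m : ℕ) (P : ℝ[X]) (s : Finset ℝ), 0 < N → P.Monic → P.natDegree = m → Cls N m P →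
    (∀ x ∈ s, 0 < x ∧ x < 1 ∧ P.eval x = 0) → m / N ≤ s.card → ∃ t, Fac N m P t

/-- two factored polynomials without double zero combinations interlace -/
def SepSt : Prop :=
  ∀ (N m m' : ℕ) (P Q : ℝ[X]) (t s : ℕ → ℝ), 2 ≤ N → (m' = m + 1 ∨ m' = m + N) →
    Fac N m P t → Fac N m' Q s → NoDbl P Q →
    ∀ v, v < m / N → t v < s v ∧ (v + 1 < m' / N → s (v + 1) < t v)

end Pool.Agent.Lib.MP_b1555f_an
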