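import Pool.Agent.Lib.MP_b1555f_an.Defs

set_option autoImplicit false

namespace Pool.Agent.Lib.MP_b1555f_an

open Polynomial Finset

namespace Facx

lemma sorted (S : Finset ℝ) (j : ℕ) (h : S.card = j) :
    ∃ t : ℕ → ℝ, (∀ v, v < j → t v ∈ S) ∧ (∀ v w, v < w → w < j → t w < t v) ∧
      ∀ x ∈ S, ∃ v, v < j ∧ t v = x := by
  refine ⟨fun v => if k : v < j then S.orderEmbOfFin h (Fin.rev ⟨v, k⟩) else 0, fun v hv => ?_,
    fun v w a b => ?_, fun x hx => ?_⟩
  · simp only [dif_pos hv]
    exact S.orderEmbOfFin_mem h _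
  · simp only [dif_pos b, dif_pos (a.trans b)]
    exact (S.orderEmbOfFin h).strictMono (Fin.rev_lt_rev.2 a)
  · have : x ∈ Set.range (S.orderEmbOfFin h) := by rw [S.range_orderEmbOfFin h]; exact hx
    obtain ⟨i, rfl⟩ := this
    refine ⟨(Fin.rev i).1, (Fin.rev i).2, ?_⟩
    simp only [dif_pos (Fin.rev i).2, Fin.eta, Fin.rev_rev]

end Facx

theorem fac_st : FacSt := by
  intro N m P s hN hm hd hc hs hj
  obtain ⟨R, hR⟩ : X ^ (m % N) ∣ P := X_pow_dvd_iff.2 fun d h => by
    by_contra k
    have := hc d k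
    rw [Nat.mod_eq_of_lt (h.trans (Nat.mod_lt _ hN))] at this
    omega
  have e : expand ℝ N (contract N R) = R := by
    ext d
    rw [coeff_expand hN, coeff_contract hN.ne']
    split_ifs with h
    · rw [Nat.div_mul_cancel h]
    · by_contra k
      have h1 : P.coeff (d + m % N) ≠ 0 := by
        rw [hR, coeff_X_pow_mul]
        exact fun q => k q.symm
      have h2 : d + m % N ≡ 0 + m % N [MOD N] := by
        have := hc _ h1
        unfold Nat.ModEq
        rw [this, zero_add, Nat.mod_mod]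
      exact h ((Nat.modEq_zero_iff_dvd).1 (Nat.ModEq.add_right_cancel' _ h2))
  set q := contract N R with hq
  have m1 : R.Monic := (monic_X_pow _).of_mul_monic_left (hR ▸ hm)
  have m2 : q.Monic := (monic_expand_iff hN).1 (e.symm ▸ m1)
  have d1 : q.natDegree = m / N := by
    have h1 := congrArg natDegree hR
    rw [(monic_X_pow _).natDegree_mul m1, natDegree_X_pow, ← e, natDegree_expand, hd] at h1
    have h2 := Nat.mod_add_div m N
    refine Nat.eq_of_mul_eq_mul_left hN ?_
    rw [mul_comm] at h1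
    omega
  have inj : Set.InjOn (fun x : ℝ => x ^ N) s := fun x hx y hy h =>
    (pow_left_inj₀ (hs x hx).1.le (hs y hy).1.le hN.ne').1 h
  have r : q.roots = (s.image fun x : ℝ => x ^ N).val := by
    refine roots_eq_of_natDegree_le_card_of_ne_zero (fun y hy => ?_) ?_ m2.ne_zero
    · obtain ⟨x, hx, rfl⟩ := mem_image.1 hy
      have h1 := (hs x hx).2.2
      rw [hR, ← e, eval_mul, eval_pow, eval_X, expand_eval] at h1
      exact (mul_eq_zero.1 h1).resolve_left (pow_pos (hs x hx).1 _).ne'
    · rw [card_image_of_injOn inj, d1]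
      exact hj
  have c : (s.image fun x : ℝ => x ^ N).card = m / N := by
    refine le_antisymm ?_ (by rw [card_image_of_injOn inj]; exact hj)
    rw [← d1, card_def, ← r]
    exact card_roots' q
  obtain ⟨t, t1, t2, t3⟩ := Facx.sorted _ _ c
  refine ⟨t, ?_, fun v hv => ?_, t2⟩
  · have p := prod_multiset_X_sub_C_of_monic_of_roots_card_eq m2 (by rw [r, d1]; exact c)
    have p2 : ∏ v ∈ range (m / N), (X - C (t v)) = q := by
      rw [← p, r]
      refine prod_bij (t := s.image fun x : ℝ => x ^ N) (g := fun a => X - C a) (fun v _ => t v)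
        (fun v hv => t1 v (mem_range.1 hv)) (fun v hv w hw h => ?_) (fun x hx => ?_)
        fun _ _ => rfl
      · rcases lt_trichotomy v w with k | k | k
        · exact absurd h (t2 v w k (mem_range.1 hw)).ne'
        · exact k
        · exact absurd h (t2 w v k (mem_range.1 hv)).ne
      · obtain ⟨v, v1, v2⟩ := t3 x hx
        exact ⟨v, mem_range.2 v1, v2⟩
    rw [p2, ← expand_eq_comp_X_pow, e]
    exact hR
  · obtain ⟨x, hx, k⟩ := mem_image.1 (t1 v hv)
    rw [← k]
    exact ⟨pow_pos (hs x hx).1 _, pow_lt_one₀ (hs x hx).1.le (hs x hx).2.1 hN.ne'⟩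

end Pool.Agent.Lib.MP_b1555f_an
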