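import Pool.Agent.Lib.MP_b1555f_an.Defs

/-! The Bergman inner product on the regular polygon: sesquilinear, definite, rotation invariant. -/

set_option autoImplicit false

namespace Pool.Agent.Lib.MP_b1555f_an

open Polynomial MeasureTheory

namespace Ipx

theorem gon_sub (N : ℕ) (hN : N ≠ 0) : gon N ⊆ Metric.closedBall (0 : ℂ) 1 := by
  refine interior_subset.trans (convexHull_min ?_ (convex_closedBall 0 1))
  intro w hw
  have hw' : w ^ N = 1 := hw
  have h1 : ‖w‖ ^ N = 1 := by rw [← norm_pow, hw', norm_one]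
  have h2 : ‖w‖ = 1 := (pow_eq_one_iff_of_nonneg (norm_nonneg w) hN).1 h1
  simp [h2]

theorem intg (N : ℕ) (hN : N ≠ 0) (f : ℂ → ℂ) (hf : Continuous f) :
    IntegrableOn f (gon N) volume :=
  (hf.continuousOn.integrableOn_compact (isCompact_closedBall (0 : ℂ) 1)).mono_set (gon_sub N hN)

theorem cont (p r : ℂ[X]) : Continuous fun z : ℂ => p.eval z * (starRingEnd ℂ) (r.eval z) :=
  p.continuous.mul (Complex.continuous_conj.comp r.continuous)

theorem nonempty_of (N : ℕ) (a : ℂ) (ha : a ^ N = 1) (him : a.im ≠ 0) (hre : a.re ≠ 1) :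
    (gon N).Nonempty := by
  unfold gon
  rw [(convex_convexHull ℝ _).interior_nonempty_iff_affineSpan_eq_top, affineSpan_convexHull]
  have h1 : (1 : ℂ) ∈ {w : ℂ | w ^ N = 1} := by simp
  have h2 : a ∈ {w : ℂ | w ^ N = 1} := ha
  have h3 : (starRingEnd ℂ) a ∈ {w : ℂ | w ^ N = 1} := by
    show (starRingEnd ℂ) a ^ N = 1
    rw [← map_pow, ha, map_one]
  rw [AffineSubspace.affineSpan_eq_top_iff_vectorSpan_eq_top_of_nonempty ℝ ℂ ℂ ⟨1, h1⟩]
  have e1 := vsub_mem_vectorSpan ℝ h2 h1
  have e2 := vsub_mem_vectorSpan ℝ h3 h1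
  rw [eq_top_iff]
  intro z _
  have hre' : a.re - 1 ≠ 0 := sub_ne_zero.2 hre
  have key : z = (z.re / (2 * (a.re - 1)) + z.im / (2 * a.im)) • (a -ᵥ 1) +
      (z.re / (2 * (a.re - 1)) - z.im / (2 * a.im)) • ((starRingEnd ℂ) a -ᵥ 1) := by
    apply Complex.ext
    · simp only [vsub_eq_sub, Complex.add_re, Complex.smul_re, Complex.sub_re, Complex.one_re,
        Complex.conj_re, smul_eq_mul]
      field_simp
      ring
    · simp only [vsub_eq_sub, Complex.add_im, Complex.smul_im, Complex.sub_im, Complex.one_im,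
        Complex.conj_im, smul_eq_mul]
      field_simp
      ring
  rw [key]
  exact Submodule.add_mem _ (Submodule.smul_mem _ _ e1) (Submodule.smul_mem _ _ e2)

theorem gon_nonempty (N : ℕ) (h : N = 3 ∨ N = 4) : (gon N).Nonempty := by
  rcases h with rfl | rfl
  · have hs : Real.sqrt 3 * Real.sqrt 3 = 3 := Real.mul_self_sqrt (by norm_num)
    have hp : 0 < Real.sqrt 3 := Real.sqrt_pos.2 (by norm_num)
    refine nonempty_of 3 ⟨-1 / 2, Real.sqrt 3 / 2⟩ ?_ ?_ ?_
    · apply Complex.ext
      · simp only [pow_succ, pow_zero, one_mul, Complex.mul_re, Complex.mul_im, Complex.one_re]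
        nlinarith
      · simp only [pow_succ, pow_zero, one_mul, Complex.mul_re, Complex.mul_im, Complex.one_im]
        have : Real.sqrt 3 * Real.sqrt 3 * Real.sqrt 3 = 3 * Real.sqrt 3 := by rw [hs]
        nlinarith
    · show Real.sqrt 3 / 2 ≠ 0
      positivity
    · show (-1 / 2 : ℝ) ≠ 1
      norm_num
  · refine nonempty_of 4 Complex.I ?_ ?_ ?_
    · exact Complex.I_pow_four
    · simp
    · simp

theorem pos (N : ℕ) (h : N = 3 ∨ N = 4) (p : ℂ[X]) (hp : ip N p p = 0) : p = 0 := by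
  have hN : N ≠ 0 := by omega
  have e : ip N p p = ((∫ z in gon N, Complex.normSq (p.eval z) : ℝ) : ℂ) := by
    unfold ip
    rw [← integral_complex_ofReal]
    simp only [Complex.mul_conj]
  have h0 : ∫ z in gon N, Complex.normSq (p.eval z) = 0 := by
    rw [e] at hp
    exact_mod_cast hp
  have hc : Continuous fun z : ℂ => Complex.normSq (p.eval z) :=
    Complex.continuous_normSq.comp p.continuous
  have hi : IntegrableOn (fun z : ℂ => Complex.normSq (p.eval z)) (gon N) volume :=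
    (hc.continuousOn.integrableOn_compact (isCompact_closedBall (0 : ℂ) 1)).mono_set
      (gon_sub N hN)
  have hae := (integral_eq_zero_iff_of_nonneg (fun z => Complex.normSq_nonneg _) hi).1 h0
  have ho : IsOpen (gon N) := isOpen_interior
  have hz : Set.EqOn (fun z : ℂ => Complex.normSq (p.eval z)) 0 (gon N) :=
    Measure.eqOn_open_of_ae_eq hae ho hc.continuousOn continuousOn_const
  have hinf : (gon N).Infinite := by
    obtain ⟨x, hx⟩ := gon_nonempty N h
    exact infinite_of_mem_nhds x (ho.mem_nhds hx)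
  refine Polynomial.eq_zero_of_infinite_isRoot p (hinf.mono ?_)
  intro z hzz
  have := hz hzz
  exact Complex.normSq_eq_zero.1 this

theorem image_gon (N : ℕ) (c : Circle) (hc : (c : ℂ) ^ N = 1) :
    (rotation c) '' gon N = gon N := by
  unfold gon
  have h1 : (rotation c) '' interior (convexHull ℝ {w : ℂ | w ^ N = 1}) =
      interior ((rotation c) '' convexHull ℝ {w : ℂ | w ^ N = 1}) :=
    (rotation c).toHomeomorph.image_interior _
  have h2 : (rotation c) '' convexHull ℝ {w : ℂ | w ^ N = 1} =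
      convexHull ℝ ((rotation c) '' {w : ℂ | w ^ N = 1}) :=
    (rotation c).toLinearEquiv.toLinearMap.image_convexHull _
  have h3 : (rotation c) '' {w : ℂ | w ^ N = 1} = {w : ℂ | w ^ N = 1} := by
    ext w
    constructor
    · rintro ⟨v, hv, rfl⟩
      have hv' : v ^ N = 1 := hv
      show (rotation c v) ^ N = 1
      rw [rotation_apply, mul_pow, hc, hv', one_mul]
    · intro hw
      have hw' : w ^ N = 1 := hw
      have hc0 : (c : ℂ) ≠ 0 := c.coe_ne_zero
      refine ⟨(c : ℂ)⁻¹ * w, ?_, ?_⟩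
      · show ((c : ℂ)⁻¹ * w) ^ N = 1
        rw [mul_pow, inv_pow, hc, hw', inv_one, one_mul]
      · rw [rotation_apply, ← mul_assoc, mul_inv_cancel₀ hc0, one_mul]
  rw [h1, h2, h3]

theorem rot (N : ℕ) (hN : N ≠ 0) (a b : ℕ) (hab : a % N ≠ b % N) :
    ip N (X ^ a) (X ^ b) = 0 := by
  have hζ := Complex.isPrimitiveRoot_exp N hN
  set ζ := Complex.exp (2 * Real.pi * Complex.I / N) with hζd
  have hn : ‖ζ‖ = 1 := hζ.norm'_eq_one hN
  let c : Circle := ⟨ζ, by simpa [Submonoid.unitSphere] using hn⟩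
  have hcζ : (c : ℂ) = ζ := rfl
  have hc : (c : ℂ) ^ N = 1 := hζ.pow_eq_one
  have hmp : MeasurePreserving (rotation c) volume volume := (rotation c).measurePreserving
  have hemb : MeasurableEmbedding (rotation c) := (rotation c).toHomeomorph.measurableEmbedding
  have e := hmp.setIntegral_image_emb hemb
    (fun z : ℂ => (X ^ a : ℂ[X]).eval z * (starRingEnd ℂ) ((X ^ b : ℂ[X]).eval z)) (gon N)
  rw [image_gon N c hc] at e
  have e2 : ip N (X ^ a) (X ^ b) = (ζ ^ a * (starRingEnd ℂ) ζ ^ b) * ip N (X ^ a) (X ^ b) := by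
    unfold ip
    rw [← integral_const_mul, e]
    refine integral_congr_ae (Filter.Eventually.of_forall fun z => ?_)
    simp only [rotation_apply, hcζ, eval_pow, eval_X, map_pow, map_mul, mul_pow]
    ring
  by_contra h0
  have e3 : ζ ^ a * (starRingEnd ℂ) ζ ^ b = 1 := by
    have : (ζ ^ a * (starRingEnd ℂ) ζ ^ b - 1) * ip N (X ^ a) (X ^ b) = 0 := by
      rw [sub_mul, ← e2, one_mul, sub_self]
    exact sub_eq_zero.1 ((mul_eq_zero.1 this).resolve_right h0)
  have e4 : (starRingEnd ℂ) ζ * ζ = 1 := by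
    rw [mul_comm, Complex.mul_conj, Complex.normSq_eq_norm_sq, hn]
    simp
  have e5 : ζ ^ a = ζ ^ b := by
    calc ζ ^ a = ζ ^ a * ((starRingEnd ℂ) ζ * ζ) ^ b := by rw [e4, one_pow, mul_one]
      _ = (ζ ^ a * (starRingEnd ℂ) ζ ^ b) * ζ ^ b := by rw [mul_pow, mul_assoc]
      _ = ζ ^ b := by rw [e3, one_mul]
  have hm : ∀ k : ℕ, ζ ^ k = ζ ^ (k % N) := by
    intro k
    conv_lhs => rw [← Nat.div_add_mod k N, pow_add, pow_mul, hζ.pow_eq_one, one_pow, one_mul]
  rw [hm a, hm b] at e5
  have hpos : 0 < N := Nat.pos_of_ne_zero hN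
  exact hab (hζ.pow_inj (Nat.mod_lt _ hpos) (Nat.mod_lt _ hpos) e5)

end Ipx

theorem ip_st (N : ℕ) (h : N = 3 ∨ N = 4) : IpSt N := by
  have hN : N ≠ 0 := by omega
  refine ⟨?_, ?_, ?_, ?_, Ipx.pos N h, Ipx.rot N hN⟩
  · intro p q r
    unfold ip
    rw [← integral_add (Ipx.intg N hN _ (Ipx.cont p r)) (Ipx.intg N hN _ (Ipx.cont q r))]
    simp only [eval_add, add_mul]
  · intro a p r
    unfold ip
    rw [← integral_const_mul]
    simp only [eval_mul, eval_C, mul_assoc]
  · intro p q r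
    unfold ip
    rw [← integral_add (Ipx.intg N hN _ (Ipx.cont p q)) (Ipx.intg N hN _ (Ipx.cont p r))]
    simp only [eval_add, map_add, mul_add]
  · intro a p r
    unfold ip
    rw [← integral_const_mul]
    refine integral_congr_ae (Filter.Eventually.of_forall fun z => ?_)
    simp only [eval_mul, eval_C, map_mul]
    ring

end Pool.Agent.Lib.MP_b1555f_an
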