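import Pool.Agent.Lib.MP_b1555f_an.Defs

/-! Zeros and the absence of double zeros from the Budan-Fourier counts. -/

set_option autoImplicit false

namespace Pool.Agent.Lib.MP_b1555f_an

open Polynomial Finset

namespace Keyx

theorem cnt_cls {N d k c : ℕ} (hN : 0 < N) (h : d ≤ N * c + k % N) :
    ((range d).filter fun e => e % N = k % N).card ≤ c := by
  rw [← card_range c]
  refine card_le_card_of_injOn (fun e => e / N) ?_ ?_
  · intro e he
    simp only [coe_filter, mem_range, Set.mem_ofPred_eq, coe_range, Set.mem_Iio] at he ⊢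
    have h1 := Nat.div_add_mod e N
    have h2 : N * (e / N) < N * c := by omega
    exact lt_of_mul_lt_mul_left h2 hN.le
  · intro e he e' he' k
    simp only [coe_filter, mem_range, Set.mem_ofPred_eq] at he he' k
    rw [← Nat.div_add_mod e N, ← Nat.div_add_mod e' N, k, he.2, he'.2]

theorem zc_ge (hC : CntSt) {N n m : ℕ} {G : ℝ[X]} (hW : Win N n m) (hS : Sat N n G) :
    (m + n) / N ≤ Zc G n := by
  classical
  rw [← hC N n m hW, Zc]
  refine card_le_card fun e he => ?_
  simp only [mem_filter] at he ⊢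
  exact ⟨he.1, hS e he.2⟩

theorem zc_mono (u : ℝ[X]) {n d : ℕ} (h : n ≤ d) : Zc u n ≤ Zc u d :=
  card_le_card (filter_subset_filter _ (range_subset_range.2 h))

theorem top_coeff (u : ℝ[X]) (hu : u ≠ 0) : (derivative^[u.natDegree] u).coeff 0 ≠ 0 := by
  rw [coeff_iterate_derivative, zero_add, Nat.descFactorial_self, coeff_natDegree, nsmul_eq_mul]
  exact mul_ne_zero (by exact_mod_cast (Nat.factorial_pos _).ne') (leadingCoeff_ne_zero.2 hu)

theorem top_ne (u : ℝ[X]) (hu : u ≠ 0) : derivative^[u.natDegree] u ≠ 0 := fun e =>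
  top_coeff u hu (by rw [e, coeff_zero])

theorem zc_le_V (h1 : Bf1St) (u : ℝ[X]) (hu : u ≠ 0) : Zc u u.natDegree ≤ V u u.natDegree := by
  obtain ⟨s, hs, hz⟩ := h1 u _ (top_ne u hu)
  have : s = ∅ := by
    refine eq_empty_of_forall_notMem fun x hx => top_coeff u hu ?_
    have h0 : (derivative^[u.natDegree] u).natDegree = 0 := by
      have := natDegree_iterate_derivative u u.natDegree
      omega
    have := (hs x hx).2.2
    rwa [eq_C_of_natDegree_eq_zero h0, eval_C] at this
  rwa [this, card_empty, zero_add] at hz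

theorem le_deg {u : ℝ[X]} {n : ℕ} (h : derivative^[n] u ≠ 0) : n ≤ u.natDegree := by
  by_contra k
  exact h (iterate_derivative_eq_zero (not_le.1 k))

theorem cls_mul {N k : ℕ} {G : ℝ[X]} (a : ℝ) (h : Cls N k G) : Cls N k (C a * G) := fun e he =>
  h e fun z => he (by rw [coeff_C_mul, z, mul_zero])

theorem cls_add {N k : ℕ} {G H : ℝ[X]} (h : Cls N k G) (h' : Cls N k H) : Cls N k (G + H) := by
  intro e he
  by_cases z : G.coeff e = 0
  · exact h' e fun z' => he (by rw [coeff_add, z, z', add_zero])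
  · exact h e z

theorem it_comb (e : ℕ) (a b : ℝ) (G H : ℝ[X]) : derivative^[e] (C a * G + C b * H) =
    C a * derivative^[e] G + C b * derivative^[e] H := by
  rw [iterate_map_add, iterate_derivative_C_mul, iterate_derivative_C_mul]

theorem sat_comb {N n : ℕ} {G H : ℝ[X]} (a b : ℝ) (h : Sat N n G) (h' : Sat N n H) :
    Sat N n (C a * G + C b * H) := fun e he => by
  rw [it_comb, eval_add, eval_mul, eval_mul, h e he, h' e he, mul_zero, mul_zero, add_zero]

theorem indep {P Q : ℝ[X]} (hP : P.Monic) (hQ : Q.Monic) (h : P.natDegree < Q.natDegree)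
    {a b : ℝ} (e : C a * P + C b * Q = 0) : a = 0 ∧ b = 0 := by
  have h1 := congrArg (fun F => F.coeff Q.natDegree) e
  simp only [coeff_add, coeff_C_mul, coeff_zero, coeff_eq_zero_of_natDegree_lt h,
    hQ.coeff_natDegree, mul_zero, mul_one, zero_add] at h1
  rw [h1, C_0, zero_mul, add_zero] at e
  exact ⟨C_eq_zero.1 ((mul_eq_zero.1 e).resolve_right hP.ne_zero), h1⟩

theorem deg_comb {G H : ℝ[X]} {d : ℕ} (a b : ℝ) (h : G.natDegree ≤ d) (h' : H.natDegree ≤ d) :
    (C a * G + C b * H).natDegree ≤ d :=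
  natDegree_add_le_of_degree_le ((natDegree_C_mul_le _ _).trans h)
    ((natDegree_C_mul_le _ _).trans h')

theorem win0 {N : ℕ} (h : N = 3 ∨ N = 4) (m : ℕ) : Win N (N * (m / N)) m := by
  refine ⟨h, Or.inl ?_⟩
  rcases h with rfl | rfl <;> omega

theorem win1 {N : ℕ} (h : N = 3 ∨ N = 4) (m : ℕ) : ∃ n, Win N n m ∧ Win N n (m + 1) := by
  by_cases k : (m + 1) % N = 0
  · refine ⟨N * (m / N) + 2, ⟨h, Or.inr ?_⟩, ⟨h, Or.inr ?_⟩⟩ <;>
      rcases h with rfl | rfl <;> omega
  · refine ⟨N * (m / N), ⟨h, Or.inl ?_⟩, ⟨h, Or.inl ?_⟩⟩ <;>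
      rcases h with rfl | rfl <;> omega

end Keyx

open Keyx

theorem key_st (N : ℕ) (h : N = 3 ∨ N = 4) (hI : IpSt N) (h1 : Bf1St) (h2 : Bf2St) (h3 : Var1St)
    (h4 : Var2St) (hC : CntSt) (hR : RepSt) : KeySt N := by
  have hN : 0 < N := by rcases h with rfl | rfl <;> norm_num
  refine ⟨fun m P hP => ?_, fun m P Q hP hQ a b x x0 x1 e0 e1 => ?_,
    fun m P Q hP hQ a b x x0 x1 e0 e1 => ?_⟩
  · have hW := win0 h m
    obtain ⟨G, g1, g2, g3, -⟩ := hR N _ m P hW hP.2.2.1 hP.2.2.2
    have hne : derivative^[N * (m / N)] G ≠ 0 := by rw [g3]; exact hP.1.ne_zero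
    obtain ⟨s, hs, hz⟩ := h1 G _ hne
    rw [g3] at hs
    refine ⟨s, hs, ?_⟩
    have a1 := zc_ge hC hW g2
    have a2 := (h3 N _ _ G g1 hne).trans (cnt_cls (c := m / N) hN (Nat.le_add_right _ _))
    rw [Nat.add_mul_div_left _ _ hN] at a1
    omega
  · obtain ⟨n, hW, hW'⟩ := win1 h m
    obtain ⟨G, g1, g2, g3, g4⟩ := hR N n m P hW hP.2.2.1 hP.2.2.2
    obtain ⟨H, k1, k2, k3, k4⟩ := hR N n (m + 1) Q hW' hQ.2.2.1 hQ.2.2.2
    rw [hP.2.1, max_self] at g4
    rw [hQ.2.1, max_self] at k4
    refine indep hP.1 hQ.1 (by rw [hP.2.1, hQ.2.1]; omega) ?_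
    by_contra hF
    have d1 : derivative^[n] (C a * G + C b * H) = C a * P + C b * Q := by rw [it_comb, g3, k3]
    have hne : derivative^[n] (C a * G + C b * H) ≠ 0 := by rw [d1]; exact hF
    have hu : C a * G + C b * H ≠ 0 := fun z => hne (by rw [z, iterate_map_zero])
    have b1 := h2 _ n x hne x0 x1 (by rw [d1]; exact e0)
      (by rw [Function.iterate_succ_apply', d1]; exact e1)
    obtain ⟨v1, v2, v3⟩ := h4 N (m + n) (C a * G) (C b * H) h (cls_mul a g1)
      (by rw [show m + n + 1 = m + 1 + n by ring]; exact cls_mul b k1) hu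
    have b2 := zc_le_V h1 _ v1
    rw [v2] at b2
    have b3 := zc_mono (C a * G - C b * H) (le_deg hne)
    have s2 : Sat N n (C a * G - C b * H) := by
      have := sat_comb a (-b) g2 k2
      rwa [C_neg, neg_mul, ← sub_eq_add_neg] at this
    have c1 := zc_ge hC hW (sat_comb a b g2 k2)
    have c2 := zc_ge hC hW s2
    have c3 : (m + 1 + n) / N = (m + n) / N := by rw [← hC N n m hW, ← hC N n (m + 1) hW']
    have hd : (C a * G + C b * H).natDegree ≤ m + 1 + n := deg_comb a b (by omega) k4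
    have m1 := Nat.div_add_mod (m + n) N
    have m2 := Nat.div_add_mod (m + n + 1) N
    have t1 := cnt_cls (d := (C a * G + C b * H).natDegree) (k := m + n) (c := (m + n) / N + 1) hN
      (by rw [mul_add]; omega)
    have t2 := cnt_cls (d := (C a * G + C b * H).natDegree) (k := m + n + 1)
      (c := (m + n + 1) / N) hN (by omega)
    rw [show m + n + 1 = m + 1 + n by ring, c3, show m + 1 + n = m + n + 1 by ring] at t2
    rw [filter_or] at v3
    have t3 := v3.trans (card_union_le _ _)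
    omega
  · have hW := win0 h m
    refine indep hP.1 hQ.1 (by rw [hP.2.1, hQ.2.1]; omega) ?_
    by_contra hF
    have cQ : Cls N m Q := fun e he => by rw [hQ.2.2.1 e he, Nat.add_mod_right]
    have oF : Ort N m (cx (C a * P + C b * Q)) := fun r hr => by
      have e : cx (C a * P + C b * Q) = C (algebraMap ℝ ℂ a) * cx P + C (algebraMap ℝ ℂ b) * cx Q := by
        simp only [cx, Polynomial.map_add, Polynomial.map_mul, map_C]
      rw [e, hI.addL, hI.mulL, hI.mulL, hP.2.2.2 r hr, hQ.2.2.2 r (by omega), mul_zero, mul_zero,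
        add_zero]
    obtain ⟨G, g1, g2, g3, g4⟩ := hR N _ m _ hW (cls_add (cls_mul a hP.2.2.1) (cls_mul b cQ)) oF
    have hne : derivative^[N * (m / N)] G ≠ 0 := by rw [g3]; exact hF
    have hu : G ≠ 0 := fun z => hne (by rw [z, iterate_map_zero])
    have b1 := h2 G _ x hne x0 x1 (by rw [g3]; exact e0)
      (by rw [Function.iterate_succ_apply', g3]; exact e1)
    have c1 := zc_ge hC hW g2
    have hd : (C a * P + C b * Q).natDegree ≤ m + N :=
      deg_comb a b (by rw [hP.2.1]; omega) hQ.2.1.le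
    have hd' : G.natDegree ≤ m + N + N * (m / N) :=
      g4.trans (Nat.add_le_add_right (max_le hd (Nat.le_add_right _ _)) _)
    have m1 := Nat.div_add_mod (m + N * (m / N)) N
    have t1 := (h3 N _ _ G g1 (top_ne G hu)).trans
      (cnt_cls (c := (m + N * (m / N)) / N + 1) hN (by rw [mul_add]; omega))
    omega

end Pool.Agent.Lib.MP_b1555f_an
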