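import Pool.Agent.Lib.MP_b1555f_an.Defs

set_option autoImplicit false

namespace Pool.Agent.Lib.MP_b1555f_an

open Polynomial Finset

theorem main_of {N : ℕ} (hN : N = 3 ∨ N = 4) (h0 : Rep0St) (hK : KeySt N) (hF : FacSt)
    (hS : SepSt) : ∃ t : ℕ → ℕ → ℝ,
    (∀ (m : ℕ) (p : ℂ[X]), (p.Monic ∧ p.natDegree = m ∧ Ort N m p) ↔
      p = X ^ (m % N) * (∏ v ∈ range (m / N), (X - C ((t m v : ℝ) : ℂ))).comp (X ^ N)) ∧
    (∀ m v, v < m / N → 0 < t m v ∧ t m v < 1) ∧
    ∀ m m' v, m < m' → m' ≤ m + N → v < m / N →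
      t m v < t m' v ∧ (v + 1 < m' / N → t m' (v + 1) < t m v) := by
  have hN2 : 2 ≤ N := by omega
  choose P h1 h2 h3 h4 using fun m => h0 N m hN
  have hR : ∀ m, RB N m (P m) := fun m => ⟨h1 m, h2 m, h3 m, ((h4 m _).2 rfl).2.2⟩
  have hT : ∀ m, ∃ t, Fac N m (P m) t := fun m => by
    obtain ⟨s, s1, s2⟩ := hK.zeros m _ (hR m)
    exact hF N m _ s (by omega) (h1 m) (h2 m) (h3 m) s1 s2
  choose t ht using hT
  have one : ∀ m v, v < m / N → t m v < t (m + 1) v := fun m v hv =>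
    (hS N m (m + 1) _ _ _ _ hN2 (Or.inl rfl) (ht m) (ht _) (hK.one m _ _ (hR m) (hR _)) v hv).1
  have mono : ∀ m k v, v < m / N → t m v < t (m + k + 1) v := by
    intro m k v hv
    induction k with
    | zero => exact one m v hv
    | succ k ih =>
      exact ih.trans (one (m + k + 1) v (hv.trans_le (Nat.div_le_div_right (by omega))))
  refine ⟨t, fun m p => ?_, fun m => (ht m).2.1, fun m m' v hm hm' hv => ⟨?_, fun hv' => ?_⟩⟩
  · rw [h4 m p]
    have e : cx (P m) =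
        X ^ (m % N) * (∏ v ∈ range (m / N), (X - C ((t m v : ℝ) : ℂ))).comp (X ^ N) := by
      rw [(ht m).1, cx, Polynomial.map_mul, Polynomial.map_comp, Polynomial.map_prod]
      simp
    rw [e]
  · obtain ⟨k, rfl⟩ := Nat.exists_eq_add_of_lt hm
    exact mono m k v hv
  · have a := (hS N m (m + N) _ _ _ _ hN2 (Or.inr rfl) (ht m) (ht _)
      (hK.per m _ _ (hR m) (hR _)) v hv).2 (hv'.trans_le (Nat.div_le_div_right hm'))
    rcases hm'.eq_or_lt with rfl | hl
    · exact a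
    · obtain ⟨k, hk⟩ := Nat.exists_eq_add_of_lt hl
      exact (mono m' k (v + 1) hv').trans (hk ▸ a)

end Pool.Agent.Lib.MP_b1555f_an
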