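import Pool.Agent.Lib.MP_b1555f_an.VDefs

/-! The polygon is, up to a null set, the disjoint union of the rotated sectors. -/

set_option autoImplicit false

namespace Pool.Agent.Lib.MP_b1555f_an

open MeasureTheory Finset

namespace MomAx

theorem om3_sq : om 3 ^ 2 = -1 - om 3 := by
  have h : (√3 : ℝ) * √3 = 3 := Real.mul_self_sqrt (by norm_num)
  apply Complex.ext
  · simp [om, pow_two]; nlinarith
  · simp [om, pow_two]; ring

theorem om4 : om 4 = Complex.I := by simp [om]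

theorem om_pow (N : ℕ) (h : N = 3 ∨ N = 4) : om N ^ N = 1 := by
  rcases h with rfl | rfl
  · linear_combination (om 3 - 1) * om3_sq
  · rw [om4]; exact Complex.I_pow_four

theorem om_im (N : ℕ) (h : N = 3 ∨ N = 4) : 0 < (om N).im := by
  rcases h with rfl | rfl
  · simp [om]
  · simp [om]

theorem om_norm (N : ℕ) (h : N = 3 ∨ N = 4) : ‖om N‖ = 1 := by
  have h1 : ‖om N‖ ^ N = 1 := by rw [← norm_pow, om_pow N h, norm_one]
  have h2 : N ≠ 0 := by omega
  exact (pow_eq_one_iff_of_nonneg (norm_nonneg _) h2).mp h1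

noncomputable def cb (N : ℕ) (z : ℂ) : ℝ := z.im / (om N).im
noncomputable def ca (N : ℕ) (z : ℂ) : ℝ := z.re - cb N z * (om N).re

theorem coord (N : ℕ) (h : N = 3 ∨ N = 4) (z : ℂ) : z = ca N z + cb N z * om N := by
  have := (om_im N h).ne'
  apply Complex.ext
  · simp [ca]
  · simp [cb]; field_simp

theorem cb_mk (N : ℕ) (h : N = 3 ∨ N = 4) (x y : ℝ) : cb N (x + y * om N) = y := by
  have := (om_im N h).ne'
  simp [cb]; field_simp

theorem ca_mk (N : ℕ) (h : N = 3 ∨ N = 4) (x y : ℝ) : ca N (x + y * om N) = x := by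
  rw [ca, cb_mk N h]; simp

theorem mk_inj (N : ℕ) (h : N = 3 ∨ N = 4) (x y x' y' : ℝ)
    (e : (x : ℂ) + y * om N = x' + y' * om N) : x = x' ∧ y = y' :=
  ⟨by rw [← ca_mk N h x y, e, ca_mk N h], by rw [← cb_mk N h x y, e, cb_mk N h]⟩

theorem tri_eq (N : ℕ) (h : N = 3 ∨ N = 4) :
    Tri N = {z | 0 < ca N z} ∩ ({z | 0 ≤ cb N z} ∩ {z | ca N z + cb N z ≤ 1}) := by
  ext z
  constructor
  · rintro ⟨x, y, hx, hy, hxy, rfl⟩
    simp only [Set.mem_inter_iff, Set.mem_ofPred_eq, ca_mk N h, cb_mk N h]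
    exact ⟨hx, hy, hxy⟩
  · rintro ⟨h1, h2, h3⟩
    exact ⟨_, _, h1, h2, h3, coord N h z⟩

theorem tri_meas (N : ℕ) (h : N = 3 ∨ N = 4) : MeasurableSet (Tri N) := by
  have hb : Continuous (cb N) := by unfold cb; fun_prop
  have ha : Continuous (ca N) := by unfold ca; fun_prop
  rw [tri_eq N h]
  exact (isOpen_lt continuous_const ha).measurableSet.inter
    ((isClosed_le continuous_const hb).measurableSet.inter
      (isClosed_le (ha.add hb) continuous_const).measurableSet)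

/-- the rotated sector -/
def S (N l : ℕ) : Set ℂ := (fun z => om N ^ l * z) '' Tri N

theorem mem_S (N l : ℕ) (z : ℂ) : z ∈ S N l ↔
    ∃ x y : ℝ, 0 < x ∧ 0 ≤ y ∧ x + y ≤ 1 ∧ z = om N ^ l * (x + y * om N) := by
  constructor
  · rintro ⟨t, ⟨x, y, hx, hy, hxy, rfl⟩, rfl⟩
    exact ⟨x, y, hx, hy, hxy, rfl⟩
  · rintro ⟨x, y, hx, hy, hxy, rfl⟩
    exact ⟨_, ⟨x, y, hx, hy, hxy, rfl⟩, rfl⟩

theorem rot_facts (N : ℕ) (h : N = 3 ∨ N = 4) (l : ℕ) :
    MeasurePreserving (fun z : ℂ => om N ^ l * z) volume volume ∧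
      MeasurableEmbedding (fun z : ℂ => om N ^ l * z) := by
  let a : Circle := ⟨om N ^ l, by
    show om N ^ l ∈ Metric.sphere (0 : ℂ) 1
    simp [norm_pow, om_norm N h]⟩
  have e : (fun z : ℂ => om N ^ l * z) = rotation a := by
    funext z; rw [rotation_apply]
  rw [e]
  exact ⟨(rotation a).measurePreserving, (rotation a).toHomeomorph.measurableEmbedding⟩

theorem r31 (x y : ℝ) : om 3 ^ 1 * (x + y * om 3) = ((-y : ℝ) : ℂ) + ((x - y : ℝ) : ℂ) * om 3 := by
  push_cast; linear_combination (y : ℂ) * om3_sq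

theorem r32 (x y : ℝ) : om 3 ^ 2 * (x + y * om 3) = ((y - x : ℝ) : ℂ) + ((-x : ℝ) : ℂ) * om 3 := by
  push_cast; linear_combination ((x : ℂ) + y * (om 3 - 1)) * om3_sq

theorem r41 (x y : ℝ) : om 4 ^ 1 * (x + y * om 4) = ((-y : ℝ) : ℂ) + ((x : ℝ) : ℂ) * om 4 := by
  rw [om4]; push_cast; linear_combination (y : ℂ) * Complex.I_sq

theorem r42 (x y : ℝ) : om 4 ^ 2 * (x + y * om 4) = ((-x : ℝ) : ℂ) + ((-y : ℝ) : ℂ) * om 4 := by
  rw [om4]; push_cast; linear_combination ((x : ℂ) + y * Complex.I) * Complex.I_sq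

theorem r43 (x y : ℝ) : om 4 ^ 3 * (x + y * om 4) = ((y : ℝ) : ℂ) + ((-x : ℝ) : ℂ) * om 4 := by
  rw [om4]; push_cast
  linear_combination ((x : ℂ) * Complex.I + y * (Complex.I ^ 2 - 1)) * Complex.I_sq

theorem r0 (N : ℕ) (x y : ℝ) : om N ^ 0 * (x + y * om N) = (x : ℂ) + (y : ℂ) * om N := by simp

theorem disj (N : ℕ) (h : N = 3 ∨ N = 4) :
    Set.Pairwise (↑(range N) : Set ℕ) (Function.onFun Disjoint (S N)) := by
  intro l hl l' hl' hne
  simp only [coe_range, Set.mem_Iio] at hl hl'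
  rw [Function.onFun, Set.disjoint_left]
  intro z h1 h2
  obtain ⟨x, y, hx, hy, hxy, rfl⟩ := (mem_S _ _ _).1 h1
  obtain ⟨x', y', hx', hy', hxy', e⟩ := (mem_S _ _ _).1 h2
  rcases h with rfl | rfl
  · interval_cases l <;> interval_cases l' <;> first
      | exact absurd rfl hne
      | (simp only [r0, r31, r32] at e
         obtain ⟨e1, e2⟩ := mk_inj 3 (Or.inl rfl) _ _ _ _ e
         linarith)
  · interval_cases l <;> interval_cases l' <;> first
      | exact absurd rfl hne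
      | (simp only [r0, r41, r42, r43] at e
         obtain ⟨e1, e2⟩ := mk_inj 4 (Or.inr rfl) _ _ _ _ e
         linarith)

/-- the closed polygon -/
def H (N : ℕ) : Set ℂ := convexHull ℝ {w : ℂ | w ^ N = 1}

theorem H_conv (N : ℕ) : Convex ℝ (H N) := convex_convexHull _ _

theorem pow_mem (N : ℕ) (h : N = 3 ∨ N = 4) (l : ℕ) : om N ^ l ∈ H N := by
  apply subset_convexHull
  show (om N ^ l) ^ N = 1
  rw [← pow_mul, mul_comm, pow_mul, om_pow N h, one_pow]

theorem zero_mem (N : ℕ) (h : N = 3 ∨ N = 4) : (0 : ℂ) ∈ H N := by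
  rcases h with rfl | rfl
  · have h1 := H_conv 3 (pow_mem 3 (Or.inl rfl) 1) (pow_mem 3 (Or.inl rfl) 2)
      (a := 1 / 2) (b := 1 / 2) (by norm_num) (by norm_num) (by norm_num)
    have h2 := H_conv 3 (pow_mem 3 (Or.inl rfl) 0) h1
      (a := 1 / 3) (b := 2 / 3) (by norm_num) (by norm_num) (by norm_num)
    convert h2 using 1
    simp only [Complex.real_smul]; push_cast
    linear_combination (-1 / 3 : ℂ) * om3_sq
  · have h1 := H_conv 4 (pow_mem 4 (Or.inr rfl) 0) (pow_mem 4 (Or.inr rfl) 2)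
      (a := 1 / 2) (b := 1 / 2) (by norm_num) (by norm_num) (by norm_num)
    convert h1 using 1
    simp only [Complex.real_smul, om4]; push_cast
    linear_combination (-1 / 2 : ℂ) * Complex.I_sq

theorem S_sub (N : ℕ) (h : N = 3 ∨ N = 4) (l : ℕ) : S N l ⊆ H N := by
  intro z hz
  obtain ⟨x, y, hx, hy, hxy, rfl⟩ := (mem_S _ _ _).1 hz
  have hu : 0 < x + y := by linarith
  have h1 := H_conv N (pow_mem N h l) (pow_mem N h (l + 1)) (a := x / (x + y)) (b := y / (x + y))
    (by positivity) (by positivity) (by field_simp)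
  have h2 := (H_conv N).smul_mem_of_zero_mem (zero_mem N h) h1 (t := x + y) ⟨hu.le, hxy⟩
  convert h2 using 1
  have hu' : (x : ℂ) + y ≠ 0 := by exact_mod_cast hu.ne'
  simp only [Complex.real_smul]; push_cast
  field_simp
  ring

theorem half_conv (N : ℕ) (p q : ℝ) : Convex ℝ {z : ℂ | p * ca N z + q * cb N z ≤ 1} := by
  intro x hx y hy s t hs ht hst
  simp only [Set.mem_ofPred_eq] at hx hy ⊢
  have e1 : cb N (s • x + t • y) = s * cb N x + t * cb N y := by simp [cb]; ring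
  have e2 : ca N (s • x + t • y) = s * ca N x + t * ca N y := by
    simp only [ca, e1]; simp; ring
  rw [e1, e2]
  nlinarith [mul_le_mul_of_nonneg_left hx hs, mul_le_mul_of_nonneg_left hy ht]

theorem H_le3 (p q : ℝ) (h1 : p ≤ 1) (h2 : q ≤ 1) (h3 : -p - q ≤ 1) (z : ℂ) (hz : z ∈ H 3) :
    p * ca 3 z + q * cb 3 z ≤ 1 := by
  refine convexHull_min ?_ (half_conv 3 p q) hz
  intro w hw
  have hw' : w ^ 3 = 1 := hw
  have e : (w - (((1 : ℝ) : ℂ) + ((0 : ℝ) : ℂ) * om 3)) * (w - (((0 : ℝ) : ℂ) + ((1 : ℝ) : ℂ) * om 3))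
      * (w - (((-1 : ℝ) : ℂ) + ((-1 : ℝ) : ℂ) * om 3)) = 0 := by
    push_cast; linear_combination hw' + (1 - w) * om3_sq
  rcases mul_eq_zero.1 e with e | e
  · rcases mul_eq_zero.1 e with e | e <;>
    · rw [sub_eq_zero.1 e]
      simp only [Set.mem_ofPred_eq, ca_mk 3 (Or.inl rfl), cb_mk 3 (Or.inl rfl)]
      linarith
  · rw [sub_eq_zero.1 e]
    simp only [Set.mem_ofPred_eq, ca_mk 3 (Or.inl rfl), cb_mk 3 (Or.inl rfl)]
    linarith

theorem H_le4 (p q : ℝ) (h1 : p ≤ 1) (h2 : q ≤ 1) (h3 : -p ≤ 1) (h4 : -q ≤ 1) (z : ℂ)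
    (hz : z ∈ H 4) : p * ca 4 z + q * cb 4 z ≤ 1 := by
  refine convexHull_min ?_ (half_conv 4 p q) hz
  intro w hw
  have hw' : w ^ 4 = 1 := hw
  have e : (w - (((1 : ℝ) : ℂ) + ((0 : ℝ) : ℂ) * om 4)) * (w - (((0 : ℝ) : ℂ) + ((1 : ℝ) : ℂ) * om 4))
      * ((w - (((-1 : ℝ) : ℂ) + ((0 : ℝ) : ℂ) * om 4)) *
        (w - (((0 : ℝ) : ℂ) + ((-1 : ℝ) : ℂ) * om 4))) = 0 := by
    rw [om4]; push_cast; linear_combination hw' + (1 - w ^ 2) * Complex.I_sq
  rcases mul_eq_zero.1 e with e | e <;> rcases mul_eq_zero.1 e with e | e <;>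
    · rw [sub_eq_zero.1 e]
      simp only [Set.mem_ofPred_eq, ca_mk 4 (Or.inr rfl), cb_mk 4 (Or.inr rfl)]
      linarith

theorem cover (N : ℕ) (h : N = 3 ∨ N = 4) (z : ℂ) (hz : z ∈ H N) (h0 : z ≠ 0) :
    ∃ l ∈ range N, z ∈ S N l := by
  have hc := coord N h z
  have hab : ¬ (ca N z = 0 ∧ cb N z = 0) := by
    rintro ⟨e1, e2⟩
    rw [e1, e2] at hc
    exact h0 (by simpa using hc)
  rcases h with rfl | rfl
  · have i1 := H_le3 1 1 (by norm_num) (by norm_num) (by norm_num) z hz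
    have i2 := H_le3 (-2) 1 (by norm_num) (by norm_num) (by norm_num) z hz
    have i3 := H_le3 1 (-2) (by norm_num) (by norm_num) (by norm_num) z hz
    set a := ca 3 z
    set b := cb 3 z
    by_cases c1 : 0 < a ∧ 0 ≤ b
    · exact ⟨0, by simp, (mem_S _ _ _).2 ⟨a, b, c1.1, c1.2, by linarith, by rw [r0]; exact hc⟩⟩
    by_cases c2 : a ≤ 0 ∧ a < b
    · refine ⟨1, by simp, (mem_S _ _ _).2 ⟨b - a, -a, by linarith [c2.2], by linarith [c2.1],
        by linarith, ?_⟩⟩
      rw [r31, hc]; push_cast; ring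
    · have c3 : b < 0 ∧ b ≤ a := by
        by_contra c3
        apply hab
        simp only [not_and_or, not_lt, not_le] at c1 c2 c3
        constructor <;> rcases c1 with c1 | c1 <;> rcases c2 with c2 | c2 <;>
          rcases c3 with c3 | c3 <;> linarith
      refine ⟨2, by simp, (mem_S _ _ _).2 ⟨-b, a - b, by linarith [c3.1], by linarith [c3.2],
        by linarith, ?_⟩⟩
      rw [r32, hc]; push_cast; ring
  · have i1 := H_le4 1 1 (by norm_num) (by norm_num) (by norm_num) (by norm_num) z hz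
    have i2 := H_le4 (-1) 1 (by norm_num) (by norm_num) (by norm_num) (by norm_num) z hz
    have i3 := H_le4 (-1) (-1) (by norm_num) (by norm_num) (by norm_num) (by norm_num) z hz
    have i4 := H_le4 1 (-1) (by norm_num) (by norm_num) (by norm_num) (by norm_num) z hz
    set a := ca 4 z
    set b := cb 4 z
    by_cases c1 : 0 < a ∧ 0 ≤ b
    · exact ⟨0, by simp, (mem_S _ _ _).2 ⟨a, b, c1.1, c1.2, by linarith, by rw [r0]; exact hc⟩⟩
    by_cases c2 : a ≤ 0 ∧ 0 < b
    · refine ⟨1, by simp, (mem_S _ _ _).2 ⟨b, -a, c2.2, by linarith [c2.1], by linarith, ?_⟩⟩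
      rw [r41, hc]; push_cast; ring
    by_cases c3 : a < 0 ∧ b ≤ 0
    · refine ⟨2, by simp, (mem_S _ _ _).2 ⟨-a, -b, by linarith [c3.1], by linarith [c3.2],
        by linarith, ?_⟩⟩
      rw [r42, hc]; push_cast; ring
    · have c4 : b < 0 ∧ 0 ≤ a := by
        by_contra c4
        apply hab
        simp only [not_and_or, not_lt, not_le] at c1 c2 c3 c4
        constructor <;> rcases c1 with c1 | c1 <;> rcases c2 with c2 | c2 <;>
          rcases c3 with c3 | c3 <;> rcases c4 with c4 | c4 <;> linarith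
      refine ⟨3, by simp, (mem_S _ _ _).2 ⟨-b, a, by linarith [c4.1], c4.2, by linarith, ?_⟩⟩
      rw [r43, hc]; push_cast; ring

theorem H_compact (N : ℕ) (h : N = 3 ∨ N = 4) : IsCompact (H N) := by
  apply Set.Finite.isCompact_convexHull
  have hN : 0 < N := by omega
  refine Set.Finite.subset (Polynomial.nthRoots N (1 : ℂ)).toFinset.finite_toSet ?_
  intro w hw
  simpa [Polynomial.mem_nthRoots hN] using hw

end MomAx

open MomAx in
theorem momA_st (N : ℕ) (h : N = 3 ∨ N = 4) : MomASt N := by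
  intro f hf
  have hi : IntegrableOn f (H N) := hf.continuousOn.integrableOn_compact (H_compact N h)
  refine ⟨hi.mono_set interior_subset, ?_⟩
  have e1 : gon N =ᵐ[volume] H N :=
    interior_ae_eq_of_null_frontier ((H_conv N).addHaar_frontier volume)
  have e2 : H N =ᵐ[volume] (⋃ l ∈ range N, S N l : Set ℂ) := by
    have : ∀ᵐ z : ℂ, z ≠ 0 := Measure.ae_ne volume 0
    filter_upwards [this] with z hz
    apply propext
    constructor
    · intro hz'
      obtain ⟨l, hl, hl'⟩ := cover N h z hz' hz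
      exact Set.mem_biUnion hl hl'
    · intro hz'
      obtain ⟨l, _, hl'⟩ := Set.mem_iUnion₂.1 hz'
      exact S_sub N h l hl'
  have hm : ∀ l ∈ range N, MeasurableSet (S N l) := fun l _ =>
    (rot_facts N h l).2.measurableSet_image.2 (tri_meas N h)
  rw [setIntegral_congr_set (e1.trans e2), integral_biUnion_finset _ hm (disj N h)
    (fun l _ => hi.mono_set (S_sub N h l))]
  refine Finset.sum_congr rfl fun l _ => ?_
  exact (rot_facts N h l).1.setIntegral_image_emb (rot_facts N h l).2 f (Tri N)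

end Pool.Agent.Lib.MP_b1555f_an
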