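import Pool.Agent.Lib.MP_b1555f_an.VDefs

/-! The area integral over the sector as an iterated integral (cone chart). -/

set_option autoImplicit false

namespace Pool.Agent.Lib.MP_b1555f_an

open MeasureTheory Set

namespace MomBx

/-- the cone chart -/
noncomputable def ch (w c : ℂ) : ℂ := (c.re : ℂ) * (1 + (c.im : ℂ) * (w - 1))

/-- its derivative -/
noncomputable def dch (w c : ℂ) : ℂ →L[ℝ] ℂ :=
  Complex.reCLM.smulRight (1 + (c.im : ℂ) * (w - 1)) +
    Complex.imCLM.smulRight ((c.re : ℂ) * (w - 1))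

theorem hasD (w c : ℂ) : HasFDerivAt (ch w) (dch w c) c := by
  have h1 : HasFDerivAt (fun c : ℂ => (c.re : ℂ)) (Complex.ofRealCLM.comp Complex.reCLM) c :=
    (Complex.ofRealCLM.comp Complex.reCLM).hasFDerivAt
  have h2 : HasFDerivAt (fun c : ℂ => (c.im : ℂ)) (Complex.ofRealCLM.comp Complex.imCLM) c :=
    (Complex.ofRealCLM.comp Complex.imCLM).hasFDerivAt
  have h3 := h1.mul ((h2.mul_const (w - 1)).const_add 1)
  refine h3.congr_fderiv ?_
  ext1 z
  simp [dch]
  ring

theorem det_dch (w c : ℂ) : (dch w c).det = c.re * w.im := by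
  rw [ContinuousLinearMap.det, ← LinearMap.det_toMatrix Complex.basisOneI, Matrix.det_fin_two]
  simp [LinearMap.toMatrix_apply, dch]
  ring

/-- the parameter square -/
def Sq : Set ℂ := Complex.measurableEquivRealProd ⁻¹' (Ioc (0 : ℝ) 1 ×ˢ Ico (0 : ℝ) 1)

theorem mem_Sq {c : ℂ} : c ∈ Sq ↔ (0 < c.re ∧ c.re ≤ 1) ∧ 0 ≤ c.im ∧ c.im < 1 := Iff.rfl

theorem meas_Sq : MeasurableSet Sq :=
  Complex.measurableEquivRealProd.measurable (measurableSet_Ioc.prod measurableSet_Ico)

theorem inj {w : ℂ} (hw : 0 < w.im) : InjOn (ch w) Sq := by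
  intro c hc d _ e
  have h0 := (mem_Sq.1 hc).1.1
  have e1 := congrArg Complex.re e
  have e2 := congrArg Complex.im e
  simp [ch] at e1 e2
  have k : c.re * c.im = d.re * d.im := mul_right_cancel₀ hw.ne' (by linarith)
  have k1 : c.re = d.re := by linear_combination e1 - (w.re - 1) * k
  rw [← k1] at k
  exact Complex.ext k1 (mul_left_cancel₀ h0.ne' k)

theorem img (w : ℂ) :
    {z : ℂ | ∃ x y : ℝ, 0 < x ∧ 0 ≤ y ∧ x + y ≤ 1 ∧ z = x + y * w} = ch w '' Sq := by
  ext z
  constructor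
  · rintro ⟨x, y, hx, hy, hxy, rfl⟩
    have hu : 0 < x + y := by linarith
    refine ⟨⟨x + y, y / (x + y)⟩, mem_Sq.2 ⟨⟨hu, hxy⟩, div_nonneg hy hu.le, ?_⟩, ?_⟩
    · exact (div_lt_one hu).2 (by linarith)
    · have hu' : (x : ℂ) + y ≠ 0 := by exact_mod_cast hu.ne'
      simp only [ch]
      push_cast
      field_simp
      ring
  · rintro ⟨c, hc, rfl⟩
    obtain ⟨⟨h1, h2⟩, h3, h4⟩ := mem_Sq.1 hc
    refine ⟨c.re * (1 - c.im), c.re * c.im, mul_pos h1 (by linarith), mul_nonneg h1.le h3,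
      by linarith, ?_⟩
    simp only [ch]
    push_cast
    ring

theorem main {w : ℂ} (hw : 0 < w.im) (f : ℂ → ℂ) (hf : Continuous f) :
    ∫ z in {z : ℂ | ∃ x y : ℝ, 0 < x ∧ 0 ≤ y ∧ x + y ≤ 1 ∧ z = x + y * w}, f z = (w.im : ℂ) *
      ∫ u in (0 : ℝ)..1, ∫ v in (0 : ℝ)..1, (u : ℂ) * f (u * (1 + v * (w - 1))) := by
  rw [img, integral_image_eq_integral_abs_det_fderiv_smul volume meas_Sq
    (fun c _ => (hasD w c).hasFDerivWithinAt) (inj hw) f]
  set G : ℝ × ℝ → ℂ := fun p => (p.1 : ℂ) * f (p.1 * (1 + p.2 * (w - 1))) with hG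
  have hc : Continuous G := by fun_prop
  have e1 : ∫ c in Sq, |(dch w c).det| • f (ch w c) =
      ∫ c in Sq, (w.im : ℂ) * G (Complex.measurableEquivRealProd c) := by
    refine setIntegral_congr_fun meas_Sq fun c hc => ?_
    have h0 := (mem_Sq.1 hc).1.1
    show |(dch w c).det| • f (ch w c) = (w.im : ℂ) * ((c.re : ℂ) * f (ch w c))
    rw [det_dch, abs_of_pos (mul_pos h0 hw), Complex.real_smul]
    push_cast
    ring
  rw [e1, integral_const_mul]
  congr 1
  have e2 := Complex.volume_preserving_equiv_real_prod.setIntegral_preimage_emb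
    Complex.measurableEquivRealProd.measurableEmbedding G (Ioc (0 : ℝ) 1 ×ˢ Ico (0 : ℝ) 1)
  have hi : IntegrableOn G (Ioc (0 : ℝ) 1 ×ˢ Ico (0 : ℝ) 1) ((volume : Measure ℝ).prod volume) :=
    (hc.continuousOn.integrableOn_compact (isCompact_Icc.prod isCompact_Icc)).mono_set
      (prod_mono Ioc_subset_Icc_self Ico_subset_Icc_self)
  rw [Sq, e2, Measure.volume_eq_prod, setIntegral_prod G hi,
    intervalIntegral.integral_of_le zero_le_one]
  refine setIntegral_congr_fun measurableSet_Ioc fun u _ => ?_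
  show ∫ v in Ico (0 : ℝ) 1, G (u, v) = _
  rw [intervalIntegral.integral_of_le zero_le_one, integral_Ico_eq_integral_Ioo,
    integral_Ioc_eq_integral_Ioo]

end MomBx

theorem momB_st (N : ℕ) (h : N = 3 ∨ N = 4) : MomBSt N := by
  intro f hf
  refine MomBx.main ?_ f hf
  rcases h with rfl | rfl
  · simp [om]
  · simp [om]

end Pool.Agent.Lib.MP_b1555f_an
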