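import Pool.Agent.Lib.MP_b1555f_an.Defs

/-! The Rodrigues form is orthogonal to all lower degrees. -/

set_option autoImplicit false

namespace Pool.Agent.Lib.MP_b1555f_an

open Polynomial Finset

namespace Orthx

theorem prim (p : ℂ[X]) : ∃ q : ℂ[X], derivative q = p := by
  induction p using Polynomial.induction_on' with
  | add p q hp hq =>
    obtain ⟨a, ha⟩ := hp
    obtain ⟨b, hb⟩ := hq
    exact ⟨a + b, by rw [derivative_add, ha, hb]⟩
  | monomial n a =>
    refine ⟨monomial (n + 1) (a / ((n : ℂ) + 1)), ?_⟩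
    have h : ((n : ℂ) + 1) ≠ 0 := by exact_mod_cast Nat.succ_ne_zero n
    rw [derivative_monomial_succ, div_mul_cancel₀ _ h]

theorem cls_iter {N k j : ℕ} {G : ℝ[X]} (e : ℕ) (h : Cls N k G) (hj : j + e = k) :
    Cls N j (derivative^[e] G) := by
  intro a ha
  rw [coeff_iterate_derivative] at ha
  have h1 : G.coeff (a + e) ≠ 0 := by
    intro h0
    apply ha
    rw [h0, smul_zero]
  have h2 : a + e ≡ j + e [MOD N] := by
    have := h _ h1
    rw [← hj] at this
    exact this
  exact Nat.ModEq.add_right_cancel' e h2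

theorem cx_sum (H : ℝ[X]) :
    cx H = ∑ e ∈ range (H.natDegree + 1), C ((H.coeff e : ℝ) : ℂ) * X ^ e := by
  conv_lhs => rw [H.as_sum_range_C_mul_X_pow]
  unfold cx
  rw [Polynomial.map_sum]
  refine sum_congr rfl fun e _ => ?_
  simp

theorem eval_root {N k : ℕ} {H : ℝ[X]} (h : Cls N k H) (h1 : H.eval 1 = 0) {v : ℂ}
    (hv : v ^ N = 1) : (cx H).eval v = 0 := by
  have e1 : (cx H).eval v = v ^ (k % N) * ((H.eval 1 : ℝ) : ℂ) := by
    rw [cx_sum, eval_finsetSum, eval_eq_sum_range, Complex.ofReal_sum, mul_sum]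
    refine sum_congr rfl fun e _ => ?_
    by_cases h0 : H.coeff e = 0
    · simp [h0]
    · rw [← h e h0, ← pow_eq_pow_mod e hv]
      rw [eval_mul, eval_C, eval_pow, eval_X, one_pow, mul_one, mul_comm]
  rw [e1, h1]
  simp

theorem ip_sumL {N : ℕ} (hI : IpSt N) (s : Finset ℕ) (f : ℕ → ℂ[X]) (r : ℂ[X])
    (h : ∀ e ∈ s, ip N (f e) r = 0) : ip N (∑ e ∈ s, f e) r = 0 := by
  induction s using Finset.induction_on with
  | empty => simp [ip]
  | insert a s ha ih =>
    rw [sum_insert ha, hI.addL, h a (mem_insert_self _ _),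
      ih fun e he => h e (mem_insert_of_mem he), add_zero]

theorem ip_sumR {N : ℕ} (hI : IpSt N) (s : Finset ℕ) (f : ℕ → ℂ[X]) (p : ℂ[X])
    (h : ∀ e ∈ s, ip N p (f e) = 0) : ip N p (∑ e ∈ s, f e) = 0 := by
  induction s using Finset.induction_on with
  | empty => simp [ip]
  | insert a s ha ih =>
    rw [sum_insert ha, hI.addR, h a (mem_insert_self _ _),
      ih fun e he => h e (mem_insert_of_mem he), add_zero]

theorem other {N m b : ℕ} (hI : IpSt N) {F : ℝ[X]} (hF : Cls N m F) (hb : b % N ≠ m % N) :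
    ip N (cx F) (X ^ b) = 0 := by
  rw [cx_sum]
  refine ip_sumL hI _ _ _ fun e _ => ?_
  rw [hI.mulL]
  by_cases h0 : F.coeff e = 0
  · simp [h0]
  · rw [hI.rot e b (by rw [hF e h0]; exact hb.symm), mul_zero]

theorem same {N n m b : ℕ} (hV : VertSt N) {G : ℝ[X]} (hG : Cls N (m + n) G) (hS : Sat N n G)
    (h1 : b + 1 ≤ n) (h2 : b + 1 = n → N ∣ n) : ip N (cx (derivative^[n] G)) (X ^ b) = 0 := by
  obtain ⟨P, hP⟩ := prim (cx G)
  have key := hV b (fun l => if l ≤ n then cx (derivative^[n - l] G) else P) ?_ ?_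
  · simpa using key
  · intro l hl
    by_cases h3 : l + 1 ≤ n
    · have h4 : l ≤ n := by omega
      have h5 : n - l = (n - (l + 1)) + 1 := by omega
      simp only [if_pos h3, if_pos h4]
      rw [h5, Function.iterate_succ_apply']
      unfold cx
      rw [derivative_map]
    · have h4 : l = n := by omega
      subst h4
      simp only [if_neg h3, le_refl, if_true, Nat.sub_self, Function.iterate_zero, id]
      exact hP
  · intro l hl hd v hv
    by_cases h3 : l + 2 ≤ n
    · simp only [if_pos h3]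
      have hc : Cond N n (n - (l + 2)) := by
        refine ⟨by omega, ?_⟩
        have : n - 1 - (n - (l + 2)) = l + 1 := by omega
        rw [this]
        exact hd
      exact eval_root (cls_iter (j := m + (l + 2)) _ hG (by omega)) (hS _ hc) hv
    · exfalso
      have h4 : l + 1 = n := by omega
      apply hd
      rw [h4]
      exact Dvd.dvd.mul_left (h2 (by omega)) 2

end Orthx

theorem orth_st (h3 : VertSt 3) (h4 : VertSt 4) (hI : ∀ N, (N = 3 ∨ N = 4) → IpSt N) :
    OrthSt := by
  intro N n m G hW hG hS r hr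
  have hN := hW.1
  have hI' := hI N hN
  have hV : VertSt N := by
    rcases hN with h | h
    · rw [h]; exact h3
    · rw [h]; exact h4
  rw [r.as_sum_range_C_mul_X_pow]
  refine Orthx.ip_sumR hI' _ _ _ fun b hb => ?_
  have hbm : b < m := by
    have := mem_range.1 hb
    omega
  rw [hI'.mulR]
  have h0 : ip N (cx (derivative^[n] G)) (X ^ b) = 0 := by
    by_cases hc : b % N = m % N
    · have h2 := hW.2
      refine Orthx.same hV hG hS ?_ ?_
      · rcases hN with h | h <;> subst h <;> omega
      · intro h5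
        apply Nat.dvd_of_mod_eq_zero
        rcases hN with h | h <;> subst h <;> omega
    · exact Orthx.other hI' (Orthx.cls_iter n hG rfl) hc
  rw [h0, mul_zero]

end Pool.Agent.Lib.MP_b1555f_an
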