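import Pool.Agent.Lib.MP_b1555f_an.Defs

set_option autoImplicit false

namespace Pool.Agent.Lib.MP_b1555f_an

open Polynomial MeasureTheory Finset

namespace Repx

theorem cx_sub (F G : ℝ[X]) : cx (F - G) = cx F - cx G := Polynomial.map_sub _

theorem cx_deg (F : ℝ[X]) : (cx F).degree = F.degree :=
  degree_map_eq_of_injective (algebraMap ℝ ℂ).injective F

theorem ort_sub {N m : ℕ} (hI : IpSt N) {p q : ℂ[X]} (hp : Ort N m p) (hq : Ort N m q) :
    Ort N m (p - q) := fun r hr => by
  have := hI.addL (p - q) q r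
  rw [sub_add_cancel, hp r hr, hq r hr, add_zero] at this
  exact this.symm

theorem small {N m : ℕ} (hI : IpSt N) {d : ℂ[X]} (h : d.degree < (m : WithBot ℕ))
    (ho : Ort N m d) : d = 0 := by
  by_contra e
  exact e (hI.pos d (ho d ((natDegree_lt_iff_degree_lt e).2 h)))

theorem cls_sub {N k : ℕ} {F G : ℝ[X]} (hF : Cls N k F) (hG : Cls N k G) : Cls N k (F - G) :=
  fun e he => by
    by_cases h : F.coeff e = 0
    · exact hG e fun h' => he (by rw [coeff_sub, h, h', sub_zero])
    · exact hF e h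

theorem cls_der {N m n : ℕ} {G : ℝ[X]} (hG : Cls N (m + n) G) : Cls N m (derivative^[n] G) :=
  fun e he => by
    rw [coeff_iterate_derivative] at he
    have h : G.coeff (e + n) ≠ 0 := fun h => he (by rw [h, smul_zero])
    exact Nat.ModEq.add_right_cancel' n (hG _ h)

theorem der_deg {m n : ℕ} {H : ℝ[X]} (h : H.degree < ((m + n : ℕ) : WithBot ℕ)) :
    (derivative^[n] H).degree < (m : WithBot ℕ) := by
  rw [degree_lt_iff_coeff_zero] at h ⊢
  intro e he
  rw [coeff_iterate_derivative, h (e + n) (by omega), smul_zero]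

theorem desc_ne (e n : ℕ) : (((e + n).descFactorial n : ℕ) : ℝ) ≠ 0 :=
  Nat.cast_ne_zero.2 (Nat.descFactorial_pos.2 (by omega)).ne'

theorem prim {N m : ℕ} (n : ℕ) {F : ℝ[X]} (hF : Cls N m F) :
    ∃ G : ℝ[X], Cls N (m + n) G ∧ derivative^[n] G = F ∧ G.natDegree ≤ F.natDegree + n := by
  refine ⟨∑ e ∈ range (F.natDegree + 1),
    monomial (e + n) (F.coeff e / ((e + n).descFactorial n : ℕ)), ?_, ?_, ?_⟩
  · intro j hj
    rw [finset_sum_coeff] at hj
    obtain ⟨e, -, he⟩ := exists_ne_zero_of_sum_ne_zero hj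
    rw [coeff_monomial] at he
    split_ifs at he with h
    · subst h
      exact Nat.ModEq.add_right n (hF e fun h' => he (by rw [h', zero_div]))
    · exact absurd rfl he
  · ext e
    rw [coeff_iterate_derivative, finset_sum_coeff]
    simp only [coeff_monomial, add_left_inj, sum_ite_eq', mem_range, nsmul_eq_mul]
    split_ifs with h
    · exact mul_div_cancel₀ _ (desc_ne e n)
    · rw [coeff_eq_zero_of_natDegree_lt (by omega), mul_zero]
  · refine natDegree_sum_le_of_forall_le _ _ fun e he => (natDegree_monomial_le _).trans ?_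
    have := mem_range.1 he
    omega

end Repx

open Repx

theorem rep_st (hI : ∀ N, (N = 3 ∨ N = 4) → IpSt N) (hS : SurjSt) (hO : OrthSt) : RepSt := by
  intro N n m F hW hF ho
  obtain ⟨G, h1, h2, h3⟩ := prim n hF
  obtain ⟨H, k1, k2, k3⟩ := hS N n m G hW
  have hc := cls_sub h1 k1
  have o1 := hO N n m _ hW hc k3
  have e : derivative^[n] (G - H) = F - derivative^[n] H := by rw [iterate_derivative_sub, h2]
  have o2 := ort_sub (hI N hW.1) ho o1
  rw [← cx_sub, e, sub_sub_cancel] at o2
  have z := small (hI N hW.1) ((cx_deg _).trans_lt (der_deg k2)) o2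
  have z' : derivative^[n] H = 0 := by
    rw [← degree_eq_bot, ← cx_deg, z, degree_zero]
  refine ⟨G - H, hc, k3, by rw [e, z', sub_zero], (natDegree_sub_le _ _).trans (max_le ?_ ?_)⟩
  · exact h3.trans (Nat.add_le_add_right (le_max_left _ _) n)
  · exact (natDegree_le_iff_degree_le.2 k2.le).trans (Nat.add_le_add_right (le_max_right _ _) n)

theorem rep0_st (hI : ∀ N, (N = 3 ∨ N = 4) → IpSt N) (hS : SurjSt) (hO : OrthSt) : Rep0St := by
  intro N m hN
  have hN0 : 0 < N := by omega
  have hW : Win N (N * (m / N)) m := by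
    refine ⟨hN, Or.inl ⟨Nat.mul_mod_right _ _, Nat.mul_div_le _ _, ?_⟩⟩
    have := Nat.div_add_mod m N
    have := Nat.mod_lt m hN0
    omega
  generalize N * (m / N) = n at hW
  have hX : Cls N m (X ^ m : ℝ[X]) := fun e he => by
    rw [coeff_X_pow] at he
    split_ifs at he with h
    · rw [h]
    · exact absurd rfl he
  obtain ⟨G, h1, h2, -⟩ := prim n hX
  obtain ⟨H, k1, k2, k3⟩ := hS N n m G hW
  have hc := cls_sub h1 k1
  have o1 := hO N n m _ hW hc k3
  have c1 := cls_der hc
  rw [iterate_derivative_sub, h2] at o1 c1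
  have d1 : (derivative^[n] H).degree < (X ^ m : ℝ[X]).degree := by
    rw [degree_X_pow]; exact der_deg k2
  have mo : (X ^ m - derivative^[n] H : ℝ[X]).Monic := (monic_X_pow m).sub_of_left d1
  have dg : (X ^ m - derivative^[n] H : ℝ[X]).degree = (m : WithBot ℕ) := by
    rw [degree_sub_eq_left_of_degree_lt d1, degree_X_pow]
  generalize X ^ m - derivative^[n] H = P at o1 c1 mo dg
  have mc : (cx P).Monic := mo.map _
  have dc : (cx P).degree = (m : WithBot ℕ) := (cx_deg P).trans dg
  refine ⟨P, mo, natDegree_eq_of_degree_eq_some dg, c1, fun p => ⟨fun ⟨p1, p2, p3⟩ => ?_, ?_⟩⟩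
  · have dp : p.degree = (m : WithBot ℕ) := by rw [degree_eq_natDegree p1.ne_zero, p2]
    refine sub_eq_zero.1 (small (hI N hN) ?_ (ort_sub (hI N hN) p3 o1))
    rw [← dp]
    exact degree_sub_lt (dp.trans dc.symm) p1.ne_zero (p1.leadingCoeff.trans mc.leadingCoeff.symm)
  · rintro rfl
    exact ⟨mc, natDegree_eq_of_degree_eq_some dc, o1⟩

end Pool.Agent.Lib.MP_b1555f_an
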