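import Pool.Agent.Lib.MP_b1555f_an.Defs

set_option autoImplicit false

namespace Pool.Agent.Lib.MP_b1555f_an

open Polynomial Finset

namespace Sepx

theorem rolle (R A B : ℝ[X]) (h : NoDbl (R * A) (R * B)) (α β : ℝ) (h0 : 0 ≤ α) (h1 : α < β)
    (h2 : β < 1) (ha : B.eval α = 0) (hb : B.eval β = 0) : ∃ x, α ≤ x ∧ x ≤ β ∧ A.eval x = 0 := by
  by_contra hc
  push Not at hc
  have hcont : ContinuousOn (fun x => B.eval x / A.eval x) (Set.Icc α β) :=
    B.continuous.continuousOn.div A.continuous.continuousOn fun x hx => hc x hx.1 hx.2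
  obtain ⟨x, hx, e⟩ := exists_hasDerivAt_eq_zero (f := fun x => B.eval x / A.eval x)
    (f' := fun x => ((derivative B).eval x * A.eval x - B.eval x * (derivative A).eval x) /
      (A.eval x) ^ 2) h1 hcont (by simp [ha, hb])
    fun x hx => (B.hasDerivAt x).div (A.hasDerivAt x) (hc x hx.1.le hx.2.le)
  have hA := hc x hx.1.le hx.2.le
  rw [div_eq_zero_iff] at e
  have e' := e.resolve_right (pow_ne_zero 2 hA)
  refine hA (h (-(B.eval x)) (A.eval x) x (lt_of_le_of_lt h0 hx.1) (hx.2.trans h2) ?_ ?_).2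
  · simp only [eval_add, eval_mul, eval_C]
    ring
  · simp only [derivative_add, derivative_mul, derivative_C, eval_add, eval_mul, eval_C, zero_mul,
      zero_add]
    linear_combination (R.eval x) * e'

theorem common (P Q : ℝ[X]) (h : NoDbl P Q) (x : ℝ) (h0 : 0 < x) (h1 : x < 1) (hP : P.eval x = 0)
    (hQ : Q.eval x = 0) : False := by
  have a := h ((derivative Q).eval x) (-((derivative P).eval x)) x h0 h1
    (by simp [hP, hQ]) (by
      simp only [derivative_add, derivative_mul, derivative_C, eval_add, eval_mul, eval_C, zero_mul,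
        zero_add]
      ring)
  have b := h 1 0 x h0 h1 (by simp [hP]) (by simpa using a.2)
  exact one_ne_zero b.1

theorem ev (N j : ℕ) (t : ℕ → ℝ) (x : ℝ) :
    ((∏ v ∈ range j, (X - C (t v))).comp (X ^ N)).eval x = 0 ↔ ∃ v, v < j ∧ x ^ N = t v := by
  rw [eval_comp, eval_prod, prod_eq_zero_iff]
  simp only [mem_range, eval_sub, eval_X, eval_C, eval_pow, sub_eq_zero]

theorem root (N : ℕ) (hN : N ≠ 0) (y : ℝ) (h0 : 0 < y) (h1 : y < 1) :
    ∃ x, 0 < x ∧ x < 1 ∧ x ^ N = y := by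
  refine ⟨y ^ ((N : ℝ)⁻¹), Real.rpow_pos_of_pos h0 _, Real.rpow_lt_one h0.le h1 ?_,
    Real.rpow_inv_natCast_pow h0.le hN⟩
  have : 0 < N := Nat.pos_of_ne_zero hN
  positivity

end Sepx

open Sepx in
theorem sep_st : SepSt := by
  intro N m m' P Q t s hN hm hP hQ hD
  obtain ⟨eP, tp, td⟩ := hP
  obtain ⟨eQ, sp, sd⟩ := hQ
  have hN0 : N ≠ 0 := by omega
  have hcase : m' / N = m / N + 1 ∨ (m' / N = m / N ∧ m' % N = m % N + 1) := by
    rcases hm with rfl | rfl
    · by_cases hd : N ∣ m + 1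
      · exact Or.inl (Nat.succ_div_of_dvd hd)
      · have h1 := Nat.succ_div_of_not_dvd hd
        have h2 := Nat.div_add_mod (m + 1) N
        have h3 := Nat.div_add_mod m N
        rw [h1] at h2
        exact Or.inr ⟨h1, by omega⟩
    · exact Or.inl (Nat.add_div_right m (by omega))
  have hj : m / N ≤ m' / N := by omega
  have zP : ∀ x : ℝ, 0 < x → (P.eval x = 0 ↔ ∃ v, v < m / N ∧ x ^ N = t v) := fun x hx => by
    rw [eP, eval_mul, mul_eq_zero, ev, eval_pow, eval_X, or_iff_right (pow_ne_zero _ hx.ne')]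
  have zQ : ∀ x : ℝ, 0 < x → (Q.eval x = 0 ↔ ∃ v, v < m' / N ∧ x ^ N = s v) := fun x hx => by
    rw [eQ, eval_mul, mul_eq_zero, ev, eval_pow, eval_X, or_iff_right (pow_ne_zero _ hx.ne')]
  have ne : ∀ w, w < m / N → ∀ v, v < m' / N → t w ≠ s v := by
    intro w hw v hv e
    obtain ⟨x, a, b, c⟩ := root N hN0 _ (tp w hw).1 (tp w hw).2
    exact common P Q hD x a b ((zP x a).2 ⟨w, hw, c⟩) ((zQ x a).2 ⟨v, hv, c.trans e⟩)
  have gap : ∀ v, v < m / N → ∃ w, w < m / N ∧ t w < s v ∧ (v + 1 < m' / N → s (v + 1) < t w) := by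
    intro v hv
    have hv' : v < m' / N := by omega
    obtain ⟨β, b0, b1, b2⟩ := root N hN0 _ (sp v hv').1 (sp v hv').2
    by_cases h : v + 1 < m' / N
    · obtain ⟨α, a0, a1, a2⟩ := root N hN0 _ (sp _ h).1 (sp _ h).2
      have hab : α < β := by
        refine lt_of_pow_lt_pow_left₀ N b0.le ?_
        rw [a2, b2]
        exact sd v (v + 1) (by omega) h
      obtain ⟨x, x1, x2, x3⟩ := rolle 1 P Q (by simpa using hD) α β a0.le hab b1
        ((zQ α a0).2 ⟨_, h, a2⟩) ((zQ β b0).2 ⟨_, hv', b2⟩)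
      obtain ⟨w, hw, e⟩ := (zP x (a0.trans_le x1)).1 x3
      refine ⟨w, hw, lt_of_le_of_ne ?_ (ne w hw v hv'),
        fun _ => lt_of_le_of_ne ?_ (ne w hw _ h).symm⟩
      · rw [← e, ← b2]
        exact pow_le_pow_left₀ (a0.le.trans x1) x2 N
      · rw [← e, ← a2]
        exact pow_le_pow_left₀ a0.le x1 N
    · have hk : m' % N = m % N + 1 := by omega
      have eQ' : Q = X ^ (m % N) * (X * (∏ v ∈ range (m' / N), (X - C (s v))).comp (X ^ N)) := by
        rw [eQ, hk]
        ring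
      obtain ⟨x, x1, x2, x3⟩ := rolle (X ^ (m % N))
        ((∏ v ∈ range (m / N), (X - C (t v))).comp (X ^ N))
        (X * (∏ v ∈ range (m' / N), (X - C (s v))).comp (X ^ N)) (by rw [← eP, ← eQ']; exact hD)
        0 β le_rfl b0 b1 (by simp) (by rw [eval_mul, (ev N _ s β).2 ⟨v, hv', b2⟩, mul_zero])
      obtain ⟨w, hw, e⟩ := (ev N _ t x).1 x3
      refine ⟨w, hw, lt_of_le_of_ne ?_ (ne w hw v hv'), fun h' => absurd h' h⟩
      rw [← e, ← b2]
      exact pow_le_pow_left₀ x1 x2 N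
  choose φ h1 h2 h3 using gap
  have hmono : StrictMono fun v : Fin (m / N) => (⟨φ v.1 v.2, h1 v.1 v.2⟩ : Fin (m / N)) := by
    intro v v' hvv
    have a : v.1 < v'.1 := hvv
    have b : v'.1 < m / N := v'.2
    have c : s v'.1 ≤ s (v.1 + 1) := by
      rcases Nat.lt_or_ge (v.1 + 1) v'.1 with d | d
      · exact (sd _ _ d (by omega)).le
      · rw [show v'.1 = v.1 + 1 by omega]
    have d : t (φ v'.1 v'.2) < t (φ v.1 v.2) :=
      (h2 _ _).trans (c.trans_lt (h3 v.1 v.2 (by omega)))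
    change φ v.1 v.2 < φ v'.1 v'.2
    by_contra hn
    rcases (not_lt.1 hn).lt_or_eq with f | f
    · exact lt_asymm d (td _ _ f (h1 _ _))
    · rw [f] at d
      exact lt_irrefl _ d
  intro v hv
  have e : φ v hv = v := congrArg Fin.val (hmono.apply_eq (x := ⟨v, hv⟩))
  have a := h2 v hv
  have b := h3 v hv
  rw [e] at a b
  exact ⟨a, b⟩

end Pool.Agent.Lib.MP_b1555f_an
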