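import Pool.Agent.Lib.MP_b1555f_an.Defs

set_option autoImplicit false

namespace Pool.Agent.Lib.MP_b1555f_an

open Polynomial Finset

namespace Surjx

open Classical in
theorem cC {N n m : ℕ} (hW : Win N n m) : ∀ d, d ≤ n →
    ((range d).filter fun e => Cond N n e).card =
      if N = 3 then (if n % 3 = 0 then (d + 2) / 3 + (d + 1) / 3 else (d + 2) / 3 + d / 3)
      else (d + 1) / 2
  | 0, _ => by simp
  | d + 1, h => by
    have ih := cC hW d (by omega)
    rw [card_filter] at ih ⊢
    rw [sum_range_succ, ih]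
    clear ih
    obtain ⟨r, hr⟩ : ∃ r, n = d + 1 + r := ⟨n - (d + 1), by omega⟩
    have e : Cond N n d ↔ ¬ N ∣ 2 * r := by
      unfold Cond
      rw [show n - 1 - d = r by omega]
      exact ⟨fun c => c.2, fun c => ⟨h, c⟩⟩
    rw [e]
    obtain ⟨h1 | h1, h2⟩ := hW <;> subst h1
    · have h3 : n % 3 = 0 ∨ n % 3 = 2 := by omega
      clear h2
      simp only [if_true, show 3 ∣ 2 * r ↔ r % 3 = 0 by omega]
      rcases (by omega : d % 3 = 0 ∨ d % 3 = 1 ∨ d % 3 = 2) with h4 | h4 | h4 <;>
        split_ifs <;> omega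
    · have h3 : n % 2 = 0 := by omega
      clear h2
      simp only [show ¬ (4 = 3) by omega, if_false, show 4 ∣ 2 * r ↔ r % 2 = 0 by omega]
      split_ifs <;> omega

theorem slots {N : ℕ} (h : N = 3 ∨ N = 4) (k : ℕ) : ∀ d,
    ((range d).filter fun e => e % N = k % N).card = (d + N - 1 - k % N) / N
  | 0 => by rcases h with rfl | rfl <;> simp <;> omega
  | d + 1 => by
    have ih := slots h k d
    rw [card_filter] at ih ⊢
    rw [sum_range_succ, ih]
    rcases h with rfl | rfl <;> split_ifs <;> omega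

theorem top_ne {u : ℝ[X]} (hu : u ≠ 0) (x : ℝ) : (derivative^[u.natDegree] u).eval x ≠ 0 := by
  have hz : derivative (derivative^[u.natDegree] u) = 0 := by
    rw [← Function.iterate_succ_apply' (f := derivative)]
    exact iterate_derivative_eq_zero (Nat.lt_succ_self _)
  rw [eq_C_of_derivative_eq_zero hz, eval_C, coeff_iterate_derivative, zero_add,
    Nat.descFactorial_self]
  exact smul_ne_zero (Nat.factorial_ne_zero _) (leadingCoeff_ne_zero.2 hu)

open Classical in
theorem inj (h1 : Bf1St) (h2 : Var1St) {N n m : ℕ} (hW : Win N n m) {H : ℝ[X]}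
    (hc : Cls N (m + n) H) (hd : H.degree < ((m + n : ℕ) : WithBot ℕ)) (hs : Sat N n H) :
    H = 0 := by
  by_contra h0
  have hd' : H.natDegree < m + n := (natDegree_lt_iff_degree_lt h0).2 hd
  have hk : H.natDegree % N = (m + n) % N := hc _ (leadingCoeff_ne_zero.2 h0)
  have ht := top_ne h0
  have hne : derivative^[H.natDegree] H ≠ 0 := fun e => ht 0 (by rw [e, eval_zero])
  obtain ⟨s, s1, s2⟩ := h1 H _ hne
  have hs0 : s = ∅ := eq_empty_of_forall_notMem fun x hx => ht x (s1 x hx).2.2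
  have a1 := h2 N (m + n) _ H hc hne
  rw [slots hW.1] at a1
  have a2 : ((range (min H.natDegree n)).filter fun e => Cond N n e).card ≤ Zc H H.natDegree := by
    refine card_le_card fun e he => ?_
    rw [mem_filter, mem_range] at he ⊢
    exact ⟨he.1.trans_le (min_le_left _ _), hs e he.2⟩
  rw [cC hW _ (min_le_right _ _)] at a2
  have a3 : ¬ Cond N n H.natDegree := fun c => ht 1 (hs _ c)
  rw [hs0, card_empty] at s2
  unfold Cond at a3
  generalize H.natDegree = d at *
  obtain ⟨h3 | h3, h4⟩ := hW <;> subst h3 <;> split_ifs at a2 <;> omega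

/-- the class polynomial with given coefficients -/
noncomputable def Hm (N k c : ℕ) : (Fin c → ℝ) →ₗ[ℝ] ℝ[X] :=
  ∑ l : Fin c, (monomial (k + N * l)).comp (LinearMap.proj l)

theorem Hm_apply (N k c : ℕ) (x : Fin c → ℝ) :
    Hm N k c x = ∑ l : Fin c, monomial (k + N * l) (x l) := by
  simp [Hm]

theorem Hm_supp {N k c : ℕ} {x : Fin c → ℝ} {e : ℕ} (h : (Hm N k c x).coeff e ≠ 0) :
    ∃ l : Fin c, k + N * l = e := by
  rw [Hm_apply, finsetSum_coeff] at h
  obtain ⟨l, -, hl⟩ := exists_ne_zero_of_sum_ne_zero h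
  rw [coeff_monomial] at hl
  exact ⟨l, by by_contra c; exact hl (if_neg c)⟩

theorem Hm_coeff {N k c : ℕ} (hN : 0 < N) (x : Fin c → ℝ) (l : Fin c) :
    (Hm N k c x).coeff (k + N * l) = x l := by
  rw [Hm_apply, finsetSum_coeff, sum_eq_single l]
  · simp
  · intro j _ hj
    rw [coeff_monomial, if_neg]
    intro e
    exact hj (Fin.ext (Nat.eq_of_mul_eq_mul_left hN (by omega)))
  · simp

/-- the value at one of a derivative -/
noncomputable def ev (e : ℕ) : ℝ[X] →ₗ[ℝ] ℝ :=
  (leval (1 : ℝ)).comp ((derivative : ℝ[X] →ₗ[ℝ] ℝ[X]) ^ e)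

theorem ev_apply (e : ℕ) (G : ℝ[X]) : ev e G = (derivative^[e] G).eval 1 := by
  simp [ev, Module.End.pow_apply]

end Surjx

open Surjx

theorem cnt_st : CntSt := by
  intro N n m hW
  rw [cC hW n le_rfl]
  obtain ⟨h3 | h3, h4⟩ := hW <;> subst h3 <;> split_ifs <;> omega

open Classical in
theorem surj_st (h1 : Bf1St) (h2 : Var1St) : SurjSt := by
  intro N n m G hW
  have hN : 0 < N := by rcases hW.1 with h | h <;> omega
  set S := (range n).filter fun e => Cond N n e with hS
  have cls : ∀ x, Cls N (m + n) (Hm N ((m + n) % N) ((m + n) / N) x) := by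
    intro x e he
    obtain ⟨l, rfl⟩ := Hm_supp he
    simp
  have dg : ∀ x, (Hm N ((m + n) % N) ((m + n) / N) x).degree < ((m + n : ℕ) : WithBot ℕ) := by
    intro x
    rw [degree_lt_iff_coeff_zero]
    intro e he
    by_contra c
    obtain ⟨l, rfl⟩ := Hm_supp c
    have a1 := Nat.mod_add_div (m + n) N
    have a2 : N * (l : ℕ) < N * ((m + n) / N) := Nat.mul_lt_mul_of_pos_left l.2 hN
    omega
  let T : (Fin ((m + n) / N) → ℝ) →ₗ[ℝ] (S → ℝ) :=
    LinearMap.pi fun e => (ev e.1).comp (Hm N ((m + n) % N) ((m + n) / N))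
  have hT : ∀ x (e : S), T x e = (derivative^[e.1] (Hm N ((m + n) % N) ((m + n) / N) x)).eval 1 :=
    fun x e => ev_apply _ _
  have mem : ∀ e, Cond N n e → e ∈ S := fun e he => mem_filter.2 ⟨mem_range.2 he.1, he⟩
  have hi : Function.Injective T := by
    rw [injective_iff_map_eq_zero]
    intro x hx
    have := inj h1 h2 hW (cls x) (dg x) fun e he => by
      rw [← hT x ⟨e, mem e he⟩, hx]; rfl
    funext l
    rw [← Hm_coeff (k := (m + n) % N) hN x l, this]; rfl
  have hf : Module.finrank ℝ (Fin ((m + n) / N) → ℝ) = Module.finrank ℝ (S → ℝ) := by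
    rw [Module.finrank_fintype_fun_eq_card, Module.finrank_fintype_fun_eq_card, Fintype.card_fin,
      Fintype.card_coe, hS, cnt_st N n m hW]
  obtain ⟨x, hx⟩ := (LinearMap.injective_iff_surjective_of_finrank_eq_finrank hf).1 hi
    fun e => ev e.1 G
  refine ⟨_, cls x, dg x, fun e he => ?_⟩
  have := congrFun hx ⟨e, mem e he⟩
  rw [hT, ← ev_apply] at this
  rw [← ev_apply, map_sub, this, sub_self]

end Pool.Agent.Lib.MP_b1555f_an
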