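import Pool.Agent.Lib.MP_b1555f_an.Defs

/-! The sector of the polygon used for the area integrals. -/

set_option autoImplicit false

namespace Pool.Agent.Lib.MP_b1555f_an

open MeasureTheory Finset

/-- the rotation `exp (2 pi i / N)` for `N = 3` and `N = 4` -/
noncomputable def om (N : ℕ) : ℂ := if N = 3 then ⟨-1 / 2, √3 / 2⟩ else Complex.I

/-- half open triangle with corners `0`, `1`, `om N` -/
def Tri (N : ℕ) : Set ℂ :=
  {z | ∃ x y : ℝ, 0 < x ∧ 0 ≤ y ∧ x + y ≤ 1 ∧ z = x + y * om N}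

def MomASt (N : ℕ) : Prop :=
  ∀ f : ℂ → ℂ, Continuous f → IntegrableOn f (gon N) ∧
    ∫ z in gon N, f z = ∑ l ∈ range N, ∫ z in Tri N, f (om N ^ l * z)

def MomBSt (N : ℕ) : Prop :=
  ∀ f : ℂ → ℂ, Continuous f → ∫ z in Tri N, f z = ((om N).im : ℂ) *
    ∫ u in (0 : ℝ)..1, ∫ v in (0 : ℝ)..1, (u : ℂ) * f (u * (1 + v * (om N - 1)))

end Pool.Agent.Lib.MP_b1555f_an
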