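import Pool.Agent.Lib.MP_b1555f_an.Defs

/-! Sign variations at zero of polynomials supported on residue classes. -/

set_option autoImplicit false

namespace Pool.Agent.Lib.MP_b1555f_an

open Polynomial Finset

namespace Varx

theorem sg_deriv {w : ℝ[X]} (h : w.coeff 0 = 0) : sg w = sg (derivative w) := by
  by_cases h0 : w = 0
  · rw [h0, derivative_zero]
  obtain ⟨d, hd⟩ : ∃ d, w.natTrailingDegree = d + 1 := by
    refine ⟨w.natTrailingDegree - 1, ?_⟩
    have : w.natTrailingDegree ≠ 0 := fun e => by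
      have k := coeff_natTrailingDegree_ne_zero.mpr h0
      rw [e] at k
      exact k h
    omega
  have k1 : w.coeff (d + 1) ≠ 0 := hd ▸ coeff_natTrailingDegree_ne_zero.mpr h0
  have k2 : (0 : ℝ) < (d : ℝ) + 1 := by positivity
  have k3 : (derivative w).coeff d ≠ 0 := by
    rw [coeff_derivative]; exact mul_ne_zero k1 k2.ne'
  have k4 : (derivative w).natTrailingDegree = d := by
    refine le_antisymm (natTrailingDegree_le_of_ne_zero k3)
      (le_natTrailingDegree (fun e => k3 (by rw [e, coeff_zero])) fun m hm => ?_)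
    rw [coeff_derivative, coeff_eq_zero_of_lt_natTrailingDegree (by omega), zero_mul]
  have k5 : 0 < w.trailingCoeff ↔ 0 < (derivative w).trailingCoeff := by
    rw [trailingCoeff, trailingCoeff, hd, k4, coeff_derivative, mul_pos_iff_of_pos_right k2]
  unfold sg
  simp only [k5]

theorem coeff0 (u : ℝ[X]) (e : ℕ) :
    (derivative^[e] u).coeff 0 = (e.descFactorial e : ℝ) * u.coeff e := by
  rw [coeff_iterate_derivative, zero_add, nsmul_eq_mul]

theorem sg_zero {u : ℝ[X]} {e : ℕ} (h : u.coeff e = 0) :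
    sg (derivative^[e] u) = sg (derivative^[e + 1] u) := by
  rw [Function.iterate_succ_apply']
  exact sg_deriv (by rw [coeff0, h, mul_zero])

theorem sg_ne {u : ℝ[X]} {e : ℕ} (h : u.coeff e ≠ 0) :
    sg (derivative^[e] u) = if 0 < u.coeff e then 1 else -1 := by
  have k : (0 : ℝ) < e.descFactorial e := by
    exact_mod_cast Nat.descFactorial_pos.mpr le_rfl
  unfold sg
  rw [trailingCoeff_eq_coeff_zero (by rw [coeff0]; exact mul_ne_zero k.ne' h), coeff0]
  simp only [mul_pos_iff_of_pos_left k]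

theorem sg_pm (u : ℝ[X]) : sg u = 1 ∨ sg u = -1 := by
  unfold sg
  split_ifs
  · exact Or.inl rfl
  · exact Or.inr rfl

theorem pm2 {a b c d : ℝ} (ha : a = 1 ∨ a = -1) (hb : b = 1 ∨ b = -1) (hc : c = 1 ∨ c = -1)
    (hd : d = 1 ∨ d = -1) (h : ¬ (a = b ↔ c = d)) :
    ((if a ≠ c then 1 else 0) + if b ≠ d then 1 else 0 : ℕ) ≤ 1 := by
  rcases ha with rfl | rfl <;> rcases hb with rfl | rfl <;> rcases hc with rfl | rfl <;>
    rcases hd with rfl | rfl <;> revert h <;> norm_num

theorem comb (N k d : ℕ) (hN : N = 3 ∨ N = 4) (σ ρ : ℕ → ℝ) (hσ : ∀ e, σ e = 1 ∨ σ e = -1)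
    (hρ : ∀ e, ρ e = 1 ∨ ρ e = -1)
    (h : ∀ e ≤ d, (e < d ∧ σ e = σ (e + 1) ∧ ρ e = ρ (e + 1)) ∨ (e % N = k % N ∧ σ e = ρ e) ∨
      (e % N = (k + 1) % N ∧ σ e ≠ ρ e)) (j : ℕ) : ∀ e, e + j = d →
    (∑ i ∈ Ico e d, if σ i ≠ σ (i + 1) then 1 else 0) +
      (∑ i ∈ Ico e d, if ρ i ≠ ρ (i + 1) then 1 else 0) +
      (if (σ e = ρ e ↔ e % N ≠ (k + 1) % N) then 0 else 1) ≤
      ∑ i ∈ Ico e d, if i % N = k % N ∨ i % N = (k + 1) % N then 1 else 0 := by
  classical
  have m1 : k % N ≠ (k + 1) % N := by rcases hN with rfl | rfl <;> omega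
  induction j with
  | zero =>
    intro e he
    obtain rfl : e = d := he
    rcases h e le_rfl with h | h | h
    · omega
    · rw [if_pos ⟨fun _ => h.1 ▸ m1, fun _ => h.2⟩]; simp
    · rw [if_pos ⟨fun c => absurd c h.2, fun c => absurd h.1 c⟩]; simp
  | succ j ih =>
    intro e he
    have lt : e < d := by omega
    have q := ih (e + 1) (by omega)
    have m2 : (e + 1) % N = (k + 1) % N ↔ e % N = k % N := by rcases hN with rfl | rfl <;> omega
    rw [sum_eq_sum_Ico_succ_bot lt, sum_eq_sum_Ico_succ_bot lt, sum_eq_sum_Ico_succ_bot lt]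
    have b1 : (if σ e ≠ σ (e + 1) then 1 else 0 : ℕ) ≤ 1 := by split_ifs <;> omega
    have b2 : (if ρ e ≠ ρ (e + 1) then 1 else 0 : ℕ) ≤ 1 := by split_ifs <;> omega
    have b3 := pm2 (hσ e) (hρ e) (hσ (e + 1)) (hρ (e + 1))
    rcases h e lt.le with ⟨-, h1, h2⟩ | ⟨h1, h2⟩ | ⟨h1, h2⟩
    · rw [if_neg (not_not.mpr h1), if_neg (not_not.mpr h2)]
      by_cases s : e % N = k % N ∨ e % N = (k + 1) % N
      · rw [if_pos s]
        split_ifs at q ⊢ <;> omega
      · rw [if_neg s]
        rw [not_or] at s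
        have e1 : (σ e = ρ e ↔ e % N ≠ (k + 1) % N) ↔
            (σ (e + 1) = ρ (e + 1) ↔ (e + 1) % N ≠ (k + 1) % N) := by
          rw [h1, h2]
          exact iff_congr Iff.rfl (iff_of_true s.2 fun c => s.1 (m2.mp c))
        simp only [e1]
        omega
    · rw [if_pos (Or.inl h1), if_pos (show (σ e = ρ e ↔ e % N ≠ (k + 1) % N) from
        ⟨fun _ => h1 ▸ m1, fun _ => h2⟩)]
      by_cases s : σ (e + 1) = ρ (e + 1)
      · rw [if_neg fun c => c.mp s (m2.mpr h1)] at q
        omega
      · have := b3 fun c => s (c.mp h2)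
        omega
    · rw [if_pos (Or.inr h1), if_pos (show (σ e = ρ e ↔ e % N ≠ (k + 1) % N) from
        ⟨fun c => absurd c h2, fun c => absurd h1 c⟩)]
      by_cases s : σ (e + 1) = ρ (e + 1)
      · have := b3 fun c => h2 (c.mpr s)
        omega
      · rw [if_neg fun c => s (c.mpr fun c' => m1 ((m2.mp c').symm.trans h1))] at q
        omega

end Varx

open Varx

theorem var1_st : Var1St := by
  intro N k n A hA _
  refine card_le_card fun e he => ?_
  obtain ⟨h1, h2⟩ := mem_filter.mp he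
  exact mem_filter.mpr ⟨h1, hA e fun c => h2 (sg_zero c)⟩

theorem var2_st : Var2St := by
  intro N k A B hN hA hB h0
  have m1 : k % N ≠ (k + 1) % N := by rcases hN with rfl | rfl <;> omega
  have one : ∀ e, A.coeff e = 0 ∨ B.coeff e = 0 := fun e => by
    by_contra c
    rw [not_or] at c
    exact m1 ((hA e c.1).symm.trans (hB e c.2))
  have z : ∀ e, (A - B).coeff e = 0 ↔ (A + B).coeff e = 0 := fun e => by
    rw [coeff_sub, coeff_add]
    rcases one e with c | c <;> simp [c]
  have sup : (A - B).support = (A + B).support := by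
    ext e
    rw [mem_support_iff, mem_support_iff, Ne, Ne, z e]
  refine ⟨fun c => h0 (support_eq_empty.mp (by rw [← sup, c, support_zero])),
    natDegree_eq_of_degree_eq (by rw [degree, degree, sup]), ?_⟩
  have key := comb N k (A + B).natDegree hN (fun e => sg (derivative^[e] (A + B)))
    (fun e => sg (derivative^[e] (A - B))) (fun _ => sg_pm _) (fun _ => sg_pm _) (fun e he => by
      by_cases c : (A + B).coeff e = 0
      · refine Or.inl ⟨lt_of_le_of_ne he fun e' => h0 ?_, sg_zero c, sg_zero ((z e).mpr c)⟩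
        rw [e'] at c
        exact leadingCoeff_eq_zero.mp c
      have c' : (A - B).coeff e ≠ 0 := fun d => c ((z e).mp d)
      simp only [sg_ne c, sg_ne c']
      rw [coeff_add] at c
      rw [coeff_add, coeff_sub]
      rcases one e with d | d
      · rw [d, zero_add] at c
        refine Or.inr (Or.inr ⟨hB e c, ?_⟩)
        rw [d, zero_add, zero_sub]
        rcases lt_or_gt_of_ne c with d' | d'
        · rw [if_neg (not_lt.mpr d'.le), if_pos (neg_pos.mpr d')]; norm_num
        · rw [if_pos d', if_neg (not_lt.mpr (neg_nonpos.mpr d'.le))]; norm_num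
      · rw [d, add_zero] at c
        exact Or.inr (Or.inl ⟨hA e c, by rw [d, add_zero, sub_zero]⟩)) _ 0 (zero_add _)
  unfold V
  rw [card_filter, card_filter, card_filter, range_eq_Ico]
  exact le_trans (Nat.le_add_right _ _) key

end Pool.Agent.Lib.MP_b1555f_an
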