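import Pool.Agent.Lib.MP_b1555f_an.VertA
import Pool.Agent.Lib.MP_b1555f_an.MomB

/-! The vertex formula for the triangle and the square. -/

set_option autoImplicit false

namespace Pool.Agent.Lib.MP_b1555f_an

theorem vert3_st : VertSt 3 := vert_of 3 (Or.inl rfl) (momB_st 3 (Or.inl rfl))

theorem vert4_st : VertSt 4 := vert_of 4 (Or.inr rfl) (momB_st 4 (Or.inr rfl))

end Pool.Agent.Lib.MP_b1555f_an
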