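import Pool.Agent.Lib.MP_b1555f_an.MomA

/-! From the area integral to the vertex values, given the chart of the sector. -/

set_option autoImplicit false

namespace Pool.Agent.Lib.MP_b1555f_an

open Polynomial MeasureTheory Finset

namespace Vertx

theorem lin (c d x : ℂ) : HasDerivAt (fun v : ℂ => c + v * d) d x := by
  simpa using ((hasDerivAt_id x).mul_const d).const_add c

theorem ftc (F F' : ℂ → ℂ) (h : ∀ x, HasDerivAt F (F' x) x) (hc : Continuous F') :
    ∫ v in (0 : ℝ)..1, F' v = F 1 - F 0 := by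
  have := intervalIntegral.integral_eq_sub_of_hasDerivAt (a := 0) (b := 1)
    (f := fun v : ℝ => F v) (f' := fun v : ℝ => F' v) (fun x _ => (h x).comp_ofReal)
    ((hc.comp Complex.continuous_ofReal).intervalIntegrable _ _)
  simpa using this

theorem side (b : ℕ) (g : ℕ → ℂ[X]) (hg : ∀ l, l ≤ b + 1 → derivative (g (l + 1)) = g l)
    (α β ρ z w : ℂ) (hρ : ρ * α = -β) :
    ∫ v in (0 : ℝ)..1, (g 1).eval (z + v * α) * (w + v * β) ^ b * β =
      ∑ l ∈ range (b + 1), -ρ ^ (l + 1) *
        ((g (l + 2)).eval (z + α) * (derivative^[l] (X ^ b : ℂ[X])).eval (w + β) -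
          (g (l + 2)).eval z * (derivative^[l] (X ^ b : ℂ[X])).eval w) := by
  have h := ftc (fun v => ∑ l ∈ range (b + 1), -ρ ^ (l + 1) *
      ((g (l + 2)).eval (z + v * α) * (derivative^[l] (X ^ b : ℂ[X])).eval (w + v * β)))
    (fun v => (g 1).eval (z + v * α) * (w + v * β) ^ b * β) ?_ (by fun_prop)
  · rw [h, ← Finset.sum_sub_distrib]
    refine Finset.sum_congr rfl fun l _ => ?_
    simp only [one_mul, zero_mul, add_zero]
    ring
  · intro x
    let t : ℕ → ℂ := fun l => ρ ^ l * β * ((g (l + 1)).eval (z + x * α) *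
      (derivative^[l] (X ^ b : ℂ[X])).eval (w + x * β))
    have e : (g 1).eval (z + x * α) * (w + x * β) ^ b * β =
        ∑ l ∈ range (b + 1), (t l - t (l + 1)) := by
      rw [Finset.sum_range_sub']
      have z0 : derivative^[b + 1] (X ^ b : ℂ[X]) = 0 :=
        iterate_derivative_eq_zero (by simp)
      simp only [t, z0]
      simp
      ring
    rw [e]
    apply HasDerivAt.fun_sum
    intro l hl
    have h1 := ((g (l + 2)).hasDerivAt (z + x * α)).comp x (lin z α x)
    have h2 := ((derivative^[l] (X ^ b : ℂ[X])).hasDerivAt (w + x * β)).comp x (lin w β x)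
    have h3 := (h1.mul h2).const_mul (-ρ ^ (l + 1))
    rw [hg (l + 1) (by have := mem_range.1 hl; omega)] at h3
    refine HasDerivAt.congr_deriv h3 ?_
    simp only [t, Function.iterate_succ_apply', Function.comp]
    linear_combination (-(ρ ^ l * (g (l + 1)).eval (z + x * α) *
      (derivative^[l] (X ^ b : ℂ[X])).eval (w + x * β))) * hρ

theorem om_conj (N : ℕ) (h : N = 3 ∨ N = 4) : om N * (starRingEnd ℂ) (om N) = 1 := by
  rw [Complex.mul_conj, Complex.normSq_eq_norm_sq, MomAx.om_norm N h]; simp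

theorem conj_pow (N : ℕ) (h : N = 3 ∨ N = 4) : (starRingEnd ℂ) (om N) ^ N = 1 := by
  rw [← map_pow, MomAx.om_pow N h, map_one]

/-- the boundary integral -/
noncomputable def B (N b : ℕ) (p : ℂ[X]) : ℂ :=
  ∑ j ∈ range N, ∫ v in (0 : ℝ)..1, p.eval (om N ^ j + v * (om N ^ j * (om N - 1))) *
    ((starRingEnd ℂ) (om N) ^ j + v * ((starRingEnd ℂ) (om N) ^ j * ((starRingEnd ℂ) (om N) - 1))) ^ b
      * ((starRingEnd ℂ) (om N) ^ j * ((starRingEnd ℂ) (om N) - 1))

theorem B_zero (N : ℕ) (h : N = 3 ∨ N = 4) (b : ℕ) (g : ℕ → ℂ[X])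
    (hg : ∀ l, l ≤ b + 1 → derivative (g (l + 1)) = g l)
    (hv : ∀ l, l ≤ b → ¬ N ∣ 2 * (l + 1) → ∀ v : ℂ, v ^ N = 1 → (g (l + 2)).eval v = 0) :
    B N b (g 1) = 0 := by
  have hc := om_conj N h
  have hN := conj_pow N h
  have hO := MomAx.om_pow N h
  unfold B
  set o := om N
  set c := (starRingEnd ℂ) o
  have hρ : ∀ j : ℕ, c ^ (2 * j + 1) * (o ^ j * (o - 1)) = -(c ^ j * (c - 1)) := by
    intro j
    have : o ^ j * c ^ j = 1 := by rw [← mul_pow, hc, one_pow]
    linear_combination (c ^ j * c * (o - 1)) * this + c ^ j * hc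
  rw [Finset.sum_congr rfl fun j _ => side b g hg _ _ _ _ _ (hρ j), Finset.sum_comm]
  refine Finset.sum_eq_zero fun l hl => ?_
  have e1 : ∀ j : ℕ, o ^ j + o ^ j * (o - 1) = o ^ (j + 1) := fun j => by ring
  have e2 : ∀ j : ℕ, c ^ j + c ^ j * (c - 1) = c ^ (j + 1) := fun j => by ring
  simp only [e1, e2]
  by_cases hd : N ∣ 2 * (l + 1)
  · obtain ⟨k, hk⟩ := hd
    have e3 : ∀ j : ℕ, (c ^ (2 * j + 1)) ^ (l + 1) = c ^ (l + 1) := by
      intro j
      have : (2 * j + 1) * (l + 1) = N * (k * j) + (l + 1) := by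
        rw [← mul_assoc, ← hk]; ring
      rw [← pow_mul, this, pow_add, pow_mul, hN, one_pow, one_mul]
    simp only [e3]
    rw [← Finset.mul_sum, Finset.sum_range_sub (fun j => (g (l + 2)).eval (o ^ j) *
      (derivative^[l] (X ^ b : ℂ[X])).eval (c ^ j)), hN, hO]
    simp
  · have e4 : ∀ j : ℕ, (g (l + 2)).eval (o ^ j) = 0 := fun j =>
      hv l (by have := mem_range.1 hl; omega) hd _
        (by rw [← pow_mul, mul_comm, pow_mul, hO, one_pow])
    simp [e4]

theorem B_add (N b : ℕ) (p q : ℂ[X]) : B N b (p + q) = B N b p + B N b q := by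
  unfold B
  rw [← Finset.sum_add_distrib]
  refine Finset.sum_congr rfl fun j _ => ?_
  rw [← intervalIntegral.integral_add]
  · congr 1; funext v; rw [eval_add]; ring
  · exact Continuous.intervalIntegrable (by fun_prop) _ _
  · exact Continuous.intervalIntegrable (by fun_prop) _ _

/-- the basic integral along the first side -/
noncomputable def K (N a b : ℕ) : ℂ :=
  ∫ v in (0 : ℝ)..1, (1 + v * (om N - 1)) ^ a * (1 + v * ((starRingEnd ℂ) (om N) - 1)) ^ b

theorem B_mono (N b a : ℕ) (r : ℂ) : B N b (monomial a r) =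
    r * (∑ j ∈ range N, (om N ^ a * (starRingEnd ℂ) (om N) ^ (b + 1)) ^ j) *
      (((starRingEnd ℂ) (om N) - 1) * K N a b) := by
  unfold B K
  rw [Finset.mul_sum, Finset.sum_mul]
  refine Finset.sum_congr rfl fun j _ => ?_
  rw [← intervalIntegral.integral_const_mul, ← intervalIntegral.integral_const_mul]
  congr 1; funext v
  set o := om N
  set c := (starRingEnd ℂ) o
  have e1 : o ^ j + v * (o ^ j * (o - 1)) = o ^ j * (1 + v * (o - 1)) := by ring
  have e2 : c ^ j + v * (c ^ j * (c - 1)) = c ^ j * (1 + v * (c - 1)) := by ring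
  rw [eval_monomial, e1, e2, mul_pow, mul_pow, mul_pow]
  ring

theorem K_ftc (N a b : ℕ) : (a : ℂ) * ((om N - 1) * K N (a - 1) (b + 1)) +
    (b + 1) * (((starRingEnd ℂ) (om N) - 1) * K N a b) =
      om N ^ a * (starRingEnd ℂ) (om N) ^ (b + 1) - 1 := by
  unfold K
  set o := om N
  set c := (starRingEnd ℂ) o
  have h := ftc (fun v => (1 + v * (o - 1)) ^ a * (1 + v * (c - 1)) ^ (b + 1))
    (fun v => (a : ℂ) * ((o - 1) * ((1 + v * (o - 1)) ^ (a - 1) * (1 + v * (c - 1)) ^ (b + 1))) +
      (b + 1) * ((c - 1) * ((1 + v * (o - 1)) ^ a * (1 + v * (c - 1)) ^ b))) ?_ (by fun_prop)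
  · rw [intervalIntegral.integral_add (Continuous.intervalIntegrable (by fun_prop) _ _)
      (Continuous.intervalIntegrable (by fun_prop) _ _)] at h
    simp only [intervalIntegral.integral_const_mul] at h
    rw [h]; simp
  · intro x
    have h1 := ((lin 1 (o - 1) x).fun_pow a).mul ((lin 1 (c - 1) x).fun_pow (b + 1))
    refine HasDerivAt.congr_deriv h1 ?_
    simp only [Nat.add_sub_cancel]; push_cast; ring

theorem K_diff (N a b : ℕ) : (om N - 1) * K N a (b + 1) -
    ((starRingEnd ℂ) (om N) - 1) * K N (a + 1) b = 2 * Complex.I * (om N).im * K N a b := by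
  have e : om N - (starRingEnd ℂ) (om N) = 2 * Complex.I * (om N).im := by
    rw [Complex.sub_conj]; push_cast; ring
  rw [← e]
  unfold K
  simp only [← intervalIntegral.integral_const_mul]
  rw [← intervalIntegral.integral_sub (Continuous.intervalIntegrable (by fun_prop) _ _)
      (Continuous.intervalIntegrable (by fun_prop) _ _)]
  congr 1; funext v; ring

theorem sector (N : ℕ) (hB : MomBSt N) (a b : ℕ) :
    ((a : ℂ) + b + 2) * ∫ z in Tri N, z ^ a * (starRingEnd ℂ) z ^ b = (om N).im * K N a b := by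
  rw [hB (fun z => z ^ a * (starRingEnd ℂ) z ^ b)
    ((continuous_pow a).mul (Complex.continuous_conj.pow b))]
  have e : ∀ u : ℝ, ∫ v in (0 : ℝ)..1, (u : ℂ) * ((u * (1 + v * (om N - 1))) ^ a *
      (starRingEnd ℂ) (u * (1 + v * (om N - 1))) ^ b) = (u : ℂ) ^ (a + b + 1) * K N a b := by
    intro u
    unfold K
    rw [← intervalIntegral.integral_const_mul]
    congr 1; funext v
    simp only [map_mul, map_add, map_sub, map_one, Complex.conj_ofReal, mul_pow]
    ring
  simp only [e]
  rw [intervalIntegral.integral_mul_const]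
  have h := ftc (fun v => v ^ (a + b + 2)) (fun v => ((a : ℂ) + b + 2) * v ^ (a + b + 1))
    (fun x => by simpa using hasDerivAt_pow (a + b + 2) x) (by fun_prop)
  rw [intervalIntegral.integral_const_mul] at h
  have h' : ((a : ℂ) + b + 2) * ∫ v in (0 : ℝ)..1, (v : ℂ) ^ (a + b + 1) = 1 := by
    rw [h]; simp
  linear_combination ((om N).im * K N a b) * h'

theorem ip_mono (N : ℕ) (hA : MomASt N) (a b : ℕ) (r : ℂ) :
    ip N (monomial a r) (X ^ b) =
      r * (∑ j ∈ range N, (om N ^ a * (starRingEnd ℂ) (om N) ^ b) ^ j) *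
        ∫ z in Tri N, z ^ a * (starRingEnd ℂ) z ^ b := by
  unfold ip
  rw [(hA (fun z => (monomial a r).eval z * (starRingEnd ℂ) ((X ^ b : ℂ[X]).eval z))
    ((Polynomial.continuous _).mul
      (Complex.continuous_conj.comp (Polynomial.continuous _)))).2, Finset.mul_sum, Finset.sum_mul]
  refine Finset.sum_congr rfl fun j _ => ?_
  rw [← integral_const_mul]
  congr 1; funext z
  simp only [eval_monomial, eval_pow, eval_X, map_pow, map_mul, mul_pow]
  ring

theorem ip_add (N : ℕ) (hA : MomASt N) (p q r : ℂ[X]) : ip N (p + q) r = ip N p r + ip N q r := by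
  unfold ip
  have hc : ∀ p : ℂ[X], Continuous fun z : ℂ => p.eval z * (starRingEnd ℂ) (r.eval z) := fun p =>
    (Polynomial.continuous _).mul (Complex.continuous_conj.comp (Polynomial.continuous _))
  rw [← integral_add (hA _ (hc p)).1 (hA _ (hc q)).1]
  congr 1; funext z; rw [eval_add]; ring

theorem green (N : ℕ) (h : N = 3 ∨ N = 4) (hA : MomASt N) (hB : MomBSt N) (b : ℕ) (p : ℂ[X]) :
    2 * Complex.I * ip N (derivative p) (X ^ b) = - B N b p := by
  induction p using Polynomial.induction_on' with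
  | add p q hp hq => rw [derivative_add, ip_add N hA, B_add, mul_add, hp, hq]; ring
  | monomial a r =>
    have hc := om_conj N h
    have hκ : (om N ^ a * (starRingEnd ℂ) (om N) ^ (b + 1)) ^ N = 1 := by
      rw [mul_pow, ← pow_mul, ← pow_mul, mul_comm a, mul_comm (b + 1), pow_mul, pow_mul,
        MomAx.om_pow N h, conj_pow N h]; simp
    have hg := geom_sum_mul (om N ^ a * (starRingEnd ℂ) (om N) ^ (b + 1)) N
    rw [hκ, sub_self] at hg
    have hf := K_ftc N a b
    rw [B_mono, derivative_monomial, ip_mono N hA]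
    cases a with
    | zero =>
      have hb : (b : ℂ) + 1 ≠ 0 := by exact_mod_cast Nat.succ_ne_zero b
      apply mul_left_cancel₀ hb
      simp only [Nat.cast_zero, zero_mul, zero_add, mul_zero] at hf ⊢
      linear_combination (r * ∑ j ∈ range N, (om N ^ 0 * (starRingEnd ℂ) (om N) ^ (b + 1)) ^ j) * hf
        + r * hg
    | succ a =>
      have hb : (a : ℂ) + b + 2 ≠ 0 := by exact_mod_cast Nat.succ_ne_zero (a + b + 1)
      have hs := sector N hB a b
      have hd := K_diff N a b
      have e : om N ^ a * (starRingEnd ℂ) (om N) ^ b =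
          om N ^ (a + 1) * (starRingEnd ℂ) (om N) ^ (b + 1) := by
        linear_combination (-(om N ^ a * (starRingEnd ℂ) (om N) ^ b)) * hc
      apply mul_left_cancel₀ hb
      simp only [Nat.add_sub_cancel] at hf ⊢
      rw [e]
      push_cast at hf ⊢
      set s := ∑ j ∈ range N, (om N ^ (a + 1) * (starRingEnd ℂ) (om N) ^ (b + 1)) ^ j
      linear_combination (2 * Complex.I * r * (a + 1) * s) * hs - (r * (a + 1) * s) * hd
        + (r * s) * hf + r * hg

end Vertx

theorem vert_of (N : ℕ) (h : N = 3 ∨ N = 4) (hB : MomBSt N) : VertSt N := by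
  intro b g hg hv
  have h1 := Vertx.green N h (momA_st N h) hB b (g 1)
  rw [hg 0 (by omega), Vertx.B_zero N h b g hg hv, neg_zero] at h1
  exact (mul_eq_zero.1 h1).resolve_left (mul_ne_zero two_ne_zero Complex.I_ne_zero)

end Pool.Agent.Lib.MP_b1555f_an
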